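import Pool.Graph.R_seed8.W669.HD.Main

/-!
# Double alternating sums of families of bivector forms: basis independence, symmetry
-/

set_option autoImplicit false

namespace Pool.Agent.H349.RP

open Finset Pool.Agent.W666.GB Pool.Agent.W669.HD

section mg

variable {V : Type} [NormedAddCommGroup V] [InnerProductSpace ℝ V] {m : ℕ}

/-- the double alternating sum of a family of `4`-tensors -/
def MG (S : Fin m → V → V → V → V → ℝ) (u v : Fin m × Bool → V) : ℝ :=
  ∑ σ : Equiv.Perm (Fin m × Bool), ∑ τ : Equiv.Perm (Fin m × Bool), sn σ * sn τ *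
    ∏ b, S b (u (σ (b, false))) (u (σ (b, true))) (v (τ (b, false))) (v (τ (b, true)))

theorem bi_add2 {K : V → V → V → V → ℝ} (h : BiForm K) (x y y' z w : V) :
    K x (y + y') z w = K x y z w + K x y' z w := by
  rw [h.anti (y + y') x, h.add, h.anti x y, h.anti x y']; ring

theorem bi_smul2 {K : V → V → V → V → ℝ} (h : BiForm K) (t : ℝ) (x y z w : V) :
    K x (t • y) z w = t * K x y z w := by
  rw [h.anti (t • y) x, h.smul, h.anti x y]; ring

theorem bi_add3 {K : V → V → V → V → ℝ} (h : BiForm K) (x y z z' w : V) :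
    K x y (z + z') w = K x y z w + K x y z' w := by
  rw [← h.pair x y (z + z') w, h.add, h.pair x y z w, h.pair x y z' w]

theorem bi_smul3 {K : V → V → V → V → ℝ} (h : BiForm K) (t : ℝ) (x y z w : V) :
    K x y (t • z) w = t * K x y z w := by
  rw [← h.pair x y (t • z) w, h.smul, h.pair x y z w]

theorem bi_anti34 {K : V → V → V → V → ℝ} (h : BiForm K) (x y z w : V) :
    K x y w z = - K x y z w := by
  rw [← h.pair x y w z, h.anti z w, h.pair x y z w]

theorem bi_add4 {K : V → V → V → V → ℝ} (h : BiForm K) (x y z w w' : V) :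
    K x y z (w + w') = K x y z w + K x y z w' := by
  rw [bi_anti34 h x y (w + w') z, bi_add3 h, bi_anti34 h x y z w, bi_anti34 h x y z w']; ring

theorem bi_smul4 {K : V → V → V → V → ℝ} (h : BiForm K) (t : ℝ) (x y z w : V) :
    K x y z (t • w) = t * K x y z w := by
  rw [bi_anti34 h x y (t • w) z, bi_smul3 h, bi_anti34 h x y z w]; ring

/-- product of the components -/
def TT (S : Fin m → V → V → V → V → ℝ) (z u : Fin m × Bool → V) : ℝ :=
  ∏ b : Fin m, S b (u (b, false)) (u (b, true)) (z (b, false)) (z (b, true))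

theorem TT_split [DecidableEq (Fin m × Bool)] (S : Fin m → V → V → V → V → ℝ)
    (z u : Fin m × Bool → V) (b0 : Fin m) (β : Bool) (x : V) :
    TT S z (Function.update u (b0, β) x) =
      S b0 (Function.update u (b0, β) x (b0, false)) (Function.update u (b0, β) x (b0, true))
        (z (b0, false)) (z (b0, true)) *
      ∏ b ∈ univ.erase b0, S b (u (b, false)) (u (b, true)) (z (b, false)) (z (b, true)) := by
  unfold TT
  rw [← Finset.mul_prod_erase _ _ (Finset.mem_univ b0)]
  congr 1
  apply Finset.prod_congr rfl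
  intro b hb
  have hb' : b ≠ b0 := Finset.ne_of_mem_erase hb
  rw [Function.update_of_ne (fun h => hb' (congrArg Prod.fst h)),
    Function.update_of_ne (fun h => hb' (congrArg Prod.fst h))]

theorem TT_add [DecidableEq (Fin m × Bool)] {S : Fin m → V → V → V → V → ℝ}
    (h : ∀ b, BiForm (S b)) (z u : Fin m × Bool → V) (i : Fin m × Bool) (x y : V) :
    TT S z (Function.update u i (x + y)) =
      TT S z (Function.update u i x) + TT S z (Function.update u i y) := by
  obtain ⟨b0, β⟩ := i
  have h1 : ((b0, true) : Fin m × Bool) ≠ (b0, false) := by simp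
  have h2 : ((b0, false) : Fin m × Bool) ≠ (b0, true) := by simp
  rw [TT_split, TT_split, TT_split]
  cases β
  · simp only [Function.update_self, Function.update_of_ne h1, (h b0).add]
    ring
  · simp only [Function.update_self, Function.update_of_ne h2, bi_add2 (h b0)]
    ring

theorem TT_smul [DecidableEq (Fin m × Bool)] {S : Fin m → V → V → V → V → ℝ}
    (h : ∀ b, BiForm (S b)) (z u : Fin m × Bool → V) (i : Fin m × Bool) (t : ℝ) (x : V) :
    TT S z (Function.update u i (t • x)) = t * TT S z (Function.update u i x) := by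
  obtain ⟨b0, β⟩ := i
  have h1 : ((b0, true) : Fin m × Bool) ≠ (b0, false) := by simp
  have h2 : ((b0, false) : Fin m × Bool) ≠ (b0, true) := by simp
  rw [TT_split, TT_split]
  cases β
  · simp only [Function.update_self, Function.update_of_ne h1, (h b0).smul]
    ring
  · simp only [Function.update_self, Function.update_of_ne h2, bi_smul2 (h b0)]
    ring

/-- the multilinear map of the first arguments -/
noncomputable def MM {S : Fin m → V → V → V → V → ℝ} (h : ∀ b, BiForm (S b))
    (v : Fin m × Bool → V) : MultilinearMap ℝ (fun _ : Fin m × Bool => V) ℝ where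
  toFun u := ∑ τ : Equiv.Perm (Fin m × Bool), sn τ * TT S (fun j => v (τ j)) u
  map_update_add' := by
    intro _ u i x y
    rw [← Finset.sum_add_distrib]
    exact Finset.sum_congr rfl fun τ _ => by rw [TT_add h]; ring
  map_update_smul' := by
    intro _ u i t x
    rw [smul_eq_mul, Finset.mul_sum]
    exact Finset.sum_congr rfl fun τ _ => by rw [TT_smul h]; ring

theorem MG_eq {S : Fin m → V → V → V → V → ℝ} (h : ∀ b, BiForm (S b)) (u v : Fin m × Bool → V) :
    MG S u v = MultilinearMap.alternatization (MM h v) u := by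
  rw [MultilinearMap.alternatization_apply]
  unfold MG
  apply Finset.sum_congr rfl
  intro σ _
  rw [Units.smul_def, zsmul_eq_mul]
  show _ = ((Equiv.Perm.sign σ : ℤ) : ℝ) * ∑ τ : Equiv.Perm (Fin m × Bool),
    sn τ * TT S (fun j => v (τ j)) (fun i => u (σ i))
  rw [Finset.mul_sum]
  apply Finset.sum_congr rfl
  intro τ _
  unfold TT
  simp only [sn]
  ring

theorem MG_symm {S : Fin m → V → V → V → V → ℝ} (h : ∀ b, BiForm (S b)) (u v : Fin m × Bool → V) :
    MG S u v = MG S v u := by
  unfold MG
  rw [Finset.sum_comm]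
  apply Finset.sum_congr rfl
  intro τ _
  apply Finset.sum_congr rfl
  intro σ _
  rw [mul_comm (sn σ)]
  congr 1
  exact Finset.prod_congr rfl fun b _ => ((h b).pair _ _ _ _).symm

theorem MG_change {S : Fin m → V → V → V → V → ℝ} (h : ∀ b, BiForm (S b))
    (e e' : OrthonormalBasis (Fin m × Bool) ℝ V) (v : Fin m × Bool → V) :
    MG S e' v = MG S e v * e.toBasis.det e' := by
  rw [MG_eq h, MG_eq h]
  have h1 := AlternatingMap.eq_smul_basis_det e.toBasis (MultilinearMap.alternatization (MM h v))
  have h2 := congrArg (fun f : V [⋀^(Fin m × Bool)]→ₗ[ℝ] ℝ => f e') h1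
  simp only [AlternatingMap.smul_apply, smul_eq_mul, OrthonormalBasis.coe_toBasis] at h2
  exact h2

/-- basis independence -/
theorem MG_bas {S : Fin m → V → V → V → V → ℝ} (h : ∀ b, BiForm (S b))
    (e e' : OrthonormalBasis (Fin m × Bool) ℝ V) : MG S e' e' = MG S e e := by
  rw [MG_change h e e' e', MG_symm h e e', MG_change h e e' e]
  rcases e.det_to_matrix_orthonormalBasis_real e' with h | h
  · rw [h]; ring
  · rw [h]; ring

theorem sn_sq (m : ℕ) (π : Equiv.Perm (Fin m × Bool)) : sn π * sn π = 1 := sn_mul_self π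

/-- permutation of the blocks -/
theorem MG_block (S : Fin m → V → V → V → V → ℝ) (ρ : Equiv.Perm (Fin m))
    (u v : Fin m × Bool → V) : MG (fun b => S (ρ b)) u v = MG S u v := by
  unfold MG
  let π : Equiv.Perm (Fin m × Bool) := ρ.prodCongr (Equiv.refl Bool)
  rw [← Equiv.sum_comp (Equiv.mulRight π)]
  refine Finset.sum_congr rfl fun σ _ => ?_
  rw [← Equiv.sum_comp (Equiv.mulRight π)]
  refine Finset.sum_congr rfl fun τ _ => ?_
  simp only [Equiv.coe_mulRight, sn_mul, Equiv.Perm.mul_apply]
  have h1 : sn σ * sn π * (sn τ * sn π) = sn σ * sn τ := by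
    have := sn_sq m π
    linear_combination (sn σ * sn τ) * this
  rw [h1]
  congr 1
  have h2 : ∀ b β, π (b, β) = (ρ b, β) := fun b β => rfl
  simp only [h2]
  exact Equiv.prod_comp ρ (fun b => S b (u (σ (b, false))) (u (σ (b, true))) (v (τ (b, false)))
    (v (τ (b, true))))

end mg

section mgx

variable {V : Type} [NormedAddCommGroup V] [InnerProductSpace ℝ V] {m : ℕ}

/-- one block carries `A`, the other ones `R` -/
def MGX (m : ℕ) (A R : V → V → V → V → ℝ) (u v : Fin (m + 1) × Bool → V) : ℝ :=
  MG (m := m + 1) (Fin.cons A (fun _ => R)) u v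

theorem MGX_apply (A R : V → V → V → V → ℝ) (u v : Fin (m + 1) × Bool → V) :
    MGX m A R u v = ∑ σ : Equiv.Perm (Fin (m + 1) × Bool), ∑ τ : Equiv.Perm (Fin (m + 1) × Bool),
      sn σ * sn τ * (A (u (σ (0, false))) (u (σ (0, true))) (v (τ (0, false))) (v (τ (0, true))) *
        ∏ b : Fin m, R (u (σ (b.succ, false))) (u (σ (b.succ, true))) (v (τ (b.succ, false)))
          (v (τ (b.succ, true)))) := by
  unfold MGX MG
  simp only [Fin.prod_univ_succ, Fin.cons_zero, Fin.cons_succ]

theorem MG_cons (R : V → V → V → V → ℝ) (u v : Fin (m + 1) × Bool → V) :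
    MG (fun _ : Fin (m + 1) => R) u v = MGX m R R u v := by
  unfold MGX
  congr 1
  funext b
  refine Fin.cases ?_ (fun i => ?_) b
  · rw [Fin.cons_zero]
  · rw [Fin.cons_succ]

theorem MG_update (A R : V → V → V → V → ℝ) (b : Fin (m + 1)) (u v : Fin (m + 1) × Bool → V) :
    MG (Function.update (fun _ => R) b A) u v = MGX m A R u v := by
  unfold MGX
  rw [← MG_block (m := m + 1) (Fin.cons A (fun _ => R)) (Equiv.swap 0 b)]
  congr 1
  funext c
  by_cases hc : c = b
  · subst hc
    rw [Function.update_self, Equiv.swap_apply_right, Fin.cons_zero]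
  · rw [Function.update_of_ne hc]
    by_cases h0 : c = 0
    · subst h0
      rw [Equiv.swap_apply_left]
      obtain ⟨i, hi⟩ := Fin.exists_succ_eq_of_ne_zero (Ne.symm hc)
      rw [← hi, Fin.cons_succ]
    · rw [Equiv.swap_apply_of_ne_of_ne h0 hc]
      obtain ⟨i, hi⟩ := Fin.exists_succ_eq_of_ne_zero h0
      rw [← hi, Fin.cons_succ]

theorem MGX_add (s t : ℝ) (A B R : V → V → V → V → ℝ) (u v : Fin (m + 1) × Bool → V) :
    MGX m (fun x y z w => s * A x y z w + t * B x y z w) R u v =
      s * MGX m A R u v + t * MGX m B R u v := by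
  simp only [MGX_apply, Finset.mul_sum, ← Finset.sum_add_distrib]
  refine Finset.sum_congr rfl fun σ _ => Finset.sum_congr rfl fun τ _ => ?_
  ring

/-- derivative in the direction of `A` -/
theorem MG_deriv (A T : V → V → V → V → ℝ) (u v : Fin (m + 1) × Bool → V) (s : ℝ) :
    HasDerivAt (fun s : ℝ => MG (fun _ : Fin (m + 1) => fun x y z w => s * A x y z w + T x y z w)
      u v) ((m + 1) * MGX m A (fun x y z w => s * A x y z w + T x y z w) u v) s := by
  classical
  have h1 : ∀ (σ τ : Equiv.Perm (Fin (m + 1) × Bool)), HasDerivAt (fun s : ℝ => sn σ * sn τ *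
      ∏ b, (s * A (u (σ (b, false))) (u (σ (b, true))) (v (τ (b, false))) (v (τ (b, true))) +
        T (u (σ (b, false))) (u (σ (b, true))) (v (τ (b, false))) (v (τ (b, true)))))
      (sn σ * sn τ * ∑ c, ∏ b, (Function.update
        (fun _ : Fin (m + 1) => (fun x y z w => s * A x y z w + T x y z w)) c A) b
          (u (σ (b, false))) (u (σ (b, true))) (v (τ (b, false))) (v (τ (b, true)))) s := by
    intro σ τ
    refine HasDerivAt.const_mul _ ?_
    have h2 := HasDerivAt.fun_finset_prod (u := (univ : Finset (Fin (m + 1))))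
      (f := fun b s => s * A (u (σ (b, false))) (u (σ (b, true))) (v (τ (b, false)))
        (v (τ (b, true))) +
        T (u (σ (b, false))) (u (σ (b, true))) (v (τ (b, false))) (v (τ (b, true))))
      (f' := fun b => A (u (σ (b, false))) (u (σ (b, true))) (v (τ (b, false))) (v (τ (b, true))))
      (x := s) (fun b _ => by
        have := ((hasDerivAt_id s).mul_const (A (u (σ (b, false))) (u (σ (b, true)))
          (v (τ (b, false))) (v (τ (b, true))))).add_const
          (T (u (σ (b, false))) (u (σ (b, true))) (v (τ (b, false))) (v (τ (b, true))))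
        simpa using this)
    convert h2 using 1
    refine Finset.sum_congr rfl fun c _ => ?_
    rw [← Finset.mul_prod_erase univ _ (Finset.mem_univ c), Function.update_self, smul_eq_mul,
      mul_comm]
    congr 1
    refine Finset.prod_congr rfl fun b hb => ?_
    rw [Function.update_of_ne (Finset.ne_of_mem_erase hb)]
  have h3 : HasDerivAt (fun s : ℝ => MG (fun _ : Fin (m + 1) => fun x y z w =>
      s * A x y z w + T x y z w) u v) (∑ σ : Equiv.Perm (Fin (m + 1) × Bool),
      ∑ τ : Equiv.Perm (Fin (m + 1) × Bool), sn σ * sn τ * ∑ c, ∏ b, (Function.update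
        (fun _ : Fin (m + 1) => (fun x y z w => s * A x y z w + T x y z w)) c A) b
          (u (σ (b, false))) (u (σ (b, true))) (v (τ (b, false))) (v (τ (b, true)))) s := by
    unfold MG
    exact HasDerivAt.fun_sum fun σ _ => HasDerivAt.fun_sum fun τ _ => h1 σ τ
  convert h3 using 1
  simp only [Finset.mul_sum]
  have h4 : ∀ σ : Equiv.Perm (Fin (m + 1) × Bool), (∑ τ : Equiv.Perm (Fin (m + 1) × Bool),
      ∑ c, sn σ * sn τ * ∏ b, (Function.update
        (fun _ : Fin (m + 1) => (fun x y z w => s * A x y z w + T x y z w)) c A) b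
          (u (σ (b, false))) (u (σ (b, true))) (v (τ (b, false))) (v (τ (b, true)))) =
      ∑ c, ∑ τ : Equiv.Perm (Fin (m + 1) × Bool), sn σ * sn τ * ∏ b, (Function.update
        (fun _ : Fin (m + 1) => (fun x y z w => s * A x y z w + T x y z w)) c A) b
          (u (σ (b, false))) (u (σ (b, true))) (v (τ (b, false))) (v (τ (b, true))) :=
    fun σ => Finset.sum_comm
  simp only [h4]
  rw [Finset.sum_comm]
  have h5 : ∀ c : Fin (m + 1), (∑ σ : Equiv.Perm (Fin (m + 1) × Bool),
      ∑ τ : Equiv.Perm (Fin (m + 1) × Bool), sn σ * sn τ * ∏ b, (Function.update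
        (fun _ : Fin (m + 1) => (fun x y z w => s * A x y z w + T x y z w)) c A) b
          (u (σ (b, false))) (u (σ (b, true))) (v (τ (b, false))) (v (τ (b, true)))) =
      MGX m A (fun x y z w => s * A x y z w + T x y z w) u v := fun c => by
    rw [← MG_update A _ c]
    rfl
  simp only [h5, Finset.sum_const, Finset.card_univ, Fintype.card_fin, nsmul_eq_mul]
  push_cast
  ring

end mgx

end Pool.Agent.H349.RP
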