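import Pool.Agent.H349.RP.A

/-!
# The cofactor form of the double alternating sum
-/

set_option autoImplicit false

namespace Pool.Agent.H349.RP

open Finset Pool.Agent.W666.GB Pool.Agent.W669.HD

section perm

variable {P : Type} [Fintype P] [DecidableEq P]

/-- sums over permutations of `Bool ⊕ P` which map `Bool` to `Bool` -/
theorem sum_perm_sum (F : Equiv.Perm (Bool ⊕ P) → ℝ)
    (hF : ∀ σ : Equiv.Perm (Bool ⊕ P), (¬ ∀ x, ∃ y, Sum.inl y = σ (Sum.inl x)) → F σ = 0) :
    ∑ σ : Equiv.Perm (Bool ⊕ P), F σ =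
      ∑ σ₁ : Equiv.Perm Bool, ∑ σ₂ : Equiv.Perm P, F (Equiv.Perm.sumCongr σ₁ σ₂) := by
  classical
  rw [← Finset.sum_product', Finset.univ_product_univ]
  symm
  have h1 : ∑ σ : Equiv.Perm (Bool ⊕ P), F σ =
      ∑ σ ∈ ((Equiv.Perm.sumCongrHom Bool P).range : Set (Equiv.Perm (Bool ⊕ P))).toFinset,
        F σ := by
    symm
    refine Finset.sum_subset (Finset.subset_univ _) ?_
    intro σ _ hσ
    refine hF σ ?_
    rw [Set.mem_toFinset] at hσ
    simpa only [Set.MapsTo, Set.mem_range, forall_exists_index, forall_apply_eq_imp_iff] using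
      mt Equiv.Perm.mem_sumCongrHom_range_of_perm_mapsTo_inl hσ
  rw [h1]
  refine Finset.sum_nbij (fun σ => σ.fst.sumCongr σ.snd) ?_ ?_ ?_ ?_
  · intro σ₁₂ _
    rw [Set.mem_toFinset]
    exact ⟨σ₁₂, rfl⟩
  · intro σ₁ _ σ₂ _
    dsimp only
    intro h
    have h2 : ∀ x, Equiv.Perm.sumCongr σ₁.fst σ₁.snd x = Equiv.Perm.sumCongr σ₂.fst σ₂.snd x :=
      DFunLike.congr_fun h
    simp only [Sum.map_inr, Sum.map_inl, Equiv.Perm.sumCongr_apply, Sum.forall, Sum.inl.injEq,
      Sum.inr.injEq] at h2
    ext x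
    · exact h2.left x
    · exact h2.right x
  · intro σ hσ
    rw [mem_coe, Set.mem_toFinset] at hσ
    obtain ⟨σ₁₂, hσ₁₂⟩ := hσ
    use σ₁₂
    rw [← hσ₁₂]
    simp
  · intro σ _
    rfl

theorem sn_sumCongr (σ₁ : Equiv.Perm Bool) (σ₂ : Equiv.Perm P) :
    sn (Equiv.Perm.sumCongr σ₁ σ₂) = sn σ₁ * sn σ₂ := by
  simp only [sn, Equiv.Perm.sign_sumCongr, Units.val_mul, Int.cast_mul]

theorem perm_bool : (Finset.univ : Finset (Equiv.Perm Bool)) = {1, Equiv.swap false true} := by
  decide

/-- the first block is `Bool` -/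
def phi (m : ℕ) : Bool ⊕ (Fin m × Bool) ≃ Fin (m + 1) × Bool where
  toFun := Sum.elim (fun β => (0, β)) (fun p => (p.1.succ, p.2))
  invFun p := Fin.cases (Sum.inl p.2) (fun i => Sum.inr (i, p.2)) p.1
  left_inv := by
    rintro (β | ⟨b, β⟩)
    · simp
    · simp
  right_inv := by
    rintro ⟨b, β⟩
    refine Fin.cases ?_ (fun i => ?_) b
    · simp
    · simp

/-- the alternating form on the first block -/
def om0 {m : ℕ} (i j : Fin (m + 1) × Bool) : ℝ :=
  (if i = (0, false) then 1 else 0) * (if j = (0, true) then 1 else 0) -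
    (if i = (0, true) then 1 else 0) * (if j = (0, false) then 1 else 0)

/-- the sum over the permutations whose first block is the first block -/
theorem sum_tail {m : ℕ} (h : (Fin m × Bool → Fin (m + 1) × Bool) → ℝ) :
    ∑ σ : Equiv.Perm (Fin (m + 1) × Bool), sn σ *
      (om0 (σ (0, false)) (σ (0, true)) * h (fun p => σ (p.1.succ, p.2))) =
      2 * ∑ σ : Equiv.Perm (Fin m × Bool), sn σ * h (fun p => ((σ p).1.succ, (σ p).2)) := by
  classical
  let e := phi m
  rw [← Equiv.sum_comp e.permCongr]
  have hs : ∀ ρ : Equiv.Perm (Bool ⊕ (Fin m × Bool)), sn (e.permCongr ρ) = sn ρ := fun ρ => by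
    simp only [sn, Equiv.Perm.sign_permCongr]
  have hinl : ∀ β, e.symm (0, β) = Sum.inl β := fun β => by
    rw [Equiv.symm_apply_eq]; rfl
  have hinr : ∀ (b : Fin m) β, e.symm (b.succ, β) = Sum.inr (b, β) := fun b β => by
    rw [Equiv.symm_apply_eq]; rfl
  rw [sum_perm_sum]
  · rw [perm_bool, Finset.sum_pair (by decide), two_mul]
    congr 1
    · refine Finset.sum_congr rfl fun σ _ => ?_
      rw [hs, sn_sumCongr, sn_one, one_mul]
      simp only [Equiv.permCongr_apply, hinl, hinr, Equiv.Perm.sumCongr_apply, Sum.map_inl,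
        Sum.map_inr, Equiv.Perm.one_apply]
      have h1 : ∀ β, e (Sum.inl β) = (0, β) := fun β => rfl
      have h2 : ∀ p, e (Sum.inr p) = (p.1.succ, p.2) := fun p => rfl
      simp only [h1, h2, om0]
      simp
    · refine Finset.sum_congr rfl fun σ _ => ?_
      rw [hs, sn_sumCongr]
      have h3 : sn (Equiv.swap false true) = -1 := by
        simp [sn, Equiv.Perm.sign_swap]
      simp only [Equiv.permCongr_apply, hinl, hinr, Equiv.Perm.sumCongr_apply, Sum.map_inl,
        Sum.map_inr, Equiv.swap_apply_left, Equiv.swap_apply_right]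
      have h1 : ∀ β, e (Sum.inl β) = (0, β) := fun β => rfl
      have h2 : ∀ p, e (Sum.inr p) = (p.1.succ, p.2) := fun p => rfl
      simp only [h1, h2, om0, h3]
      simp
  · intro σ hσ
    rw [hs]
    simp only [Equiv.permCongr_apply, hinl]
    have : om0 (e (σ (Sum.inl false))) (e (σ (Sum.inl true))) = 0 := by
      by_contra hne
      apply hσ
      have h1 : ∀ β, (0, β) = e (Sum.inl β) := fun β => rfl
      unfold om0 at hne
      simp only [h1, e.injective.eq_iff] at hne
      intro x
      by_contra hx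
      push Not at hx
      apply hne
      cases x with
      | false =>
        rw [if_neg (c := σ (Sum.inl false) = Sum.inl false) (fun h => hx false h.symm),
          if_neg (c := σ (Sum.inl false) = Sum.inl true) (fun h => hx true h.symm)]; ring
      | true =>
        rw [if_neg (c := σ (Sum.inl true) = Sum.inl true) (fun h => hx true h.symm),
          if_neg (c := σ (Sum.inl true) = Sum.inl false) (fun h => hx false h.symm)]; ring
    rw [this]; ring

end perm

section cof

variable {V : Type} [NormedAddCommGroup V] [InnerProductSpace ℝ V] {m : ℕ}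

/-- the value of `x ∧ y` on `a, b` -/
noncomputable def om (x y a b : V) : ℝ := inner ℝ x a * inner ℝ y b - inner ℝ x b * inner ℝ y a

/-- the form `(x ∧ y) ⊗ (z ∧ w)` -/
noncomputable def ww (x y z w a b c d : V) : ℝ := om x y a b * om z w c d

theorem om_add1 (x x' y a b : V) : om (x + x') y a b = om x y a b + om x' y a b := by
  simp only [om, inner_add_left]; ring

theorem om_smul1 (t : ℝ) (x y a b : V) : om (t • x) y a b = t * om x y a b := by
  simp only [om, inner_smul_left, conj_trivial]; ring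

theorem om_anti (x y a b : V) : om y x a b = - om x y a b := by
  simp only [om]; ring

theorem om_swap (x y a b : V) : om x y a b = om a b x y := by
  simp only [om, real_inner_comm a x, real_inner_comm b y, real_inner_comm b x,
    real_inner_comm a y]; ring

theorem ww_bi (x y : V) : BiForm (ww x y x y) where
  add a a' b c d := by
    simp only [ww]; rw [om_swap x y (a + a') b, om_add1, om_swap a b, om_swap a' b]; ring
  smul t a b c d := by
    simp only [ww]; rw [om_swap x y (t • a) b, om_smul1, om_swap a b]; ring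
  anti a b c d := by
    simp only [ww]; rw [om_swap x y b a, om_anti, om_swap a b]; ring
  pair a b c d := by
    simp only [ww]; ring

/-- the cofactor form -/
noncomputable def QQ (R : V → V → V → V → ℝ) (e : Fin (m + 1) × Bool → V) (x y z w : V) : ℝ :=
  MGX m (ww x y z w) R e e

theorem QQ_apply (R : V → V → V → V → ℝ) (e : Fin (m + 1) × Bool → V) (x y z w : V) :
    QQ R e x y z w = ∑ σ : Equiv.Perm (Fin (m + 1) × Bool),
      ∑ τ : Equiv.Perm (Fin (m + 1) × Bool),
      sn σ * sn τ * ((om x y (e (σ (0, false))) (e (σ (0, true))) *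
        om z w (e (τ (0, false))) (e (τ (0, true)))) *
        ∏ b : Fin m, R (e (σ (b.succ, false))) (e (σ (b.succ, true))) (e (τ (b.succ, false)))
          (e (τ (b.succ, true)))) := by
  unfold QQ
  rw [MGX_apply]
  rfl

theorem QQ_bi {R : V → V → V → V → ℝ} (hR : BiForm R) (e : Fin (m + 1) × Bool → V) :
    BiForm (QQ R e) where
  add x x' y z w := by
    simp only [QQ_apply, ← Finset.sum_add_distrib, om_add1]
    refine Finset.sum_congr rfl fun σ _ => Finset.sum_congr rfl fun τ _ => ?_
    ring
  smul t x y z w := by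
    simp only [QQ_apply, Finset.mul_sum, om_smul1]
    refine Finset.sum_congr rfl fun σ _ => Finset.sum_congr rfl fun τ _ => ?_
    ring
  anti x y z w := by
    simp only [QQ_apply, ← Finset.sum_neg_distrib, om_anti x y]
    refine Finset.sum_congr rfl fun σ _ => Finset.sum_congr rfl fun τ _ => ?_
    ring
  pair x y z w := by
    simp only [QQ_apply]
    rw [Finset.sum_comm]
    refine Finset.sum_congr rfl fun σ _ => Finset.sum_congr rfl fun τ _ => ?_
    have : ∀ b : Fin m, R (e (τ (b.succ, false))) (e (τ (b.succ, true))) (e (σ (b.succ, false)))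
          (e (σ (b.succ, true))) = R (e (σ (b.succ, false))) (e (σ (b.succ, true)))
          (e (τ (b.succ, false))) (e (τ (b.succ, true))) := fun b => hR.pair _ _ _ _
    simp only [this]
    ring

/-- basis independence -/
theorem QQ_bas {R : V → V → V → V → ℝ} (hR : BiForm R)
    (e e' : OrthonormalBasis (Fin (m + 1) × Bool) ℝ V) (x y : V) :
    QQ R e' x y x y = QQ R e x y x y := by
  unfold QQ MGX
  refine MG_bas ?_ e e'
  intro b
  refine Fin.cases ?_ (fun i => ?_) b
  · rw [Fin.cons_zero]; exact ww_bi x y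
  · rw [Fin.cons_succ]; exact hR

/-- the rest of a family -/
def tail (u : Fin (m + 1) × Bool → V) : Fin m × Bool → V := fun p => u (p.1.succ, p.2)

/-- the value at the first two vectors of the basis -/
theorem QQ_first (R : V → V → V → V → ℝ) (e : OrthonormalBasis (Fin (m + 1) × Bool) ℝ V) :
    QQ R e (e (0, false)) (e (0, true)) (e (0, false)) (e (0, true)) =
      4 * MG (fun _ : Fin m => R) (tail e) (tail e) := by
  classical
  rw [QQ_apply]
  have hom : ∀ i j : Fin (m + 1) × Bool, om (e (0, false)) (e (0, true)) (e i) (e j) =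
      om0 i j := by
    intro i j
    simp only [om, om0, OrthonormalBasis.inner_eq_ite]
    simp only [eq_comm (b := i), eq_comm (b := j)]
    ring
  simp only [hom]
  have h1 : ∀ σ : Equiv.Perm (Fin (m + 1) × Bool), (∑ τ : Equiv.Perm (Fin (m + 1) × Bool),
      sn σ * sn τ * (om0 (σ (0, false)) (σ (0, true)) * om0 (τ (0, false)) (τ (0, true)) *
        ∏ b : Fin m, R (e (σ (b.succ, false))) (e (σ (b.succ, true))) (e (τ (b.succ, false)))
          (e (τ (b.succ, true))))) =
      sn σ * (om0 (σ (0, false)) (σ (0, true)) *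
        (fun f : Fin m × Bool → Fin (m + 1) × Bool => 2 * ∑ τ : Equiv.Perm (Fin m × Bool),
          sn τ * ∏ b : Fin m, R (e (f (b, false))) (e (f (b, true))) (tail e (τ (b, false)))
          (tail e (τ (b, true)))) (fun p => σ (p.1.succ, p.2))) := by
    intro σ
    have h2 := sum_tail (m := m) (fun g : Fin m × Bool → Fin (m + 1) × Bool =>
      ∏ b : Fin m, R (e (σ (b.succ, false))) (e (σ (b.succ, true))) (e (g (b, false)))
          (e (g (b, true))))
    simp only [tail]
    rw [← h2]
    simp only [Finset.mul_sum]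
    refine Finset.sum_congr rfl fun τ _ => ?_
    ring
  simp only [h1]
  have h3 := sum_tail (m := m) (fun f : Fin m × Bool → Fin (m + 1) × Bool =>
    2 * ∑ τ : Equiv.Perm (Fin m × Bool), sn τ * ∏ b : Fin m, R (e (f (b, false)))
      (e (f (b, true))) (tail e (τ (b, false))) (tail e (τ (b, true))))
  beta_reduce at h3
  rw [h3]
  unfold MG
  simp only [Finset.mul_sum, tail]
  refine Finset.sum_congr rfl fun σ _ => Finset.sum_congr rfl fun τ _ => ?_
  ring

theorem sum_comm42 {I S : Type} [Fintype I] [Fintype S] (f : I → I → I → I → S → S → ℝ) :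
    ∑ i, ∑ j, ∑ k, ∑ l, ∑ σ, ∑ τ, f i j k l σ τ = ∑ σ, ∑ τ, ∑ i, ∑ j, ∑ k, ∑ l, f i j k l σ τ := by
  have h : ∀ g : I → I → I → I → ℝ, ∑ i, ∑ j, ∑ k, ∑ l, g i j k l =
      ∑ p : I × I × I × I, g p.1 p.2.1 p.2.2.1 p.2.2.2 := by
    intro g
    simp only [Fintype.sum_prod_type]
  have h' : ∀ g : S → S → ℝ, ∑ σ, ∑ τ, g σ τ = ∑ q : S × S, g q.1 q.2 := by
    intro g
    simp only [Fintype.sum_prod_type]
  rw [h (fun i j k l => ∑ σ, ∑ τ, f i j k l σ τ), h' (fun σ τ => ∑ i, ∑ j, ∑ k, ∑ l, f i j k l σ τ)]
  have h1 : ∀ p : I × I × I × I, (∑ σ, ∑ τ, f p.1 p.2.1 p.2.2.1 p.2.2.2 σ τ) =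
      ∑ q : S × S, f p.1 p.2.1 p.2.2.1 p.2.2.2 q.1 q.2 := fun p => h' _
  have h2 : ∀ q : S × S, (∑ i, ∑ j, ∑ k, ∑ l, f i j k l q.1 q.2) =
      ∑ p : I × I × I × I, f p.1 p.2.1 p.2.2.1 p.2.2.2 q.1 q.2 := fun q =>
    h (fun i j k l => f i j k l q.1 q.2)
  simp only [h1, h2]
  exact Finset.sum_comm

/-- the contraction with the cofactor form -/
theorem MGX_contr {A R : V → V → V → V → ℝ} (hA : BiForm A)
    (e : OrthonormalBasis (Fin (m + 1) × Bool) ℝ V) :
    ∑ i, ∑ j, ∑ k, ∑ l, A (e i) (e j) (e k) (e l) * QQ R e (e i) (e j) (e k) (e l) =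
      4 * MGX m A R e e := by
  classical
  have hom : ∀ i j p q : Fin (m + 1) × Bool, om (e i) (e j) (e p) (e q) =
      (if i = p then 1 else 0) * (if j = q then 1 else 0) -
        (if i = q then 1 else 0) * (if j = p then 1 else 0) := by
    intro i j p q
    simp only [om, OrthonormalBasis.inner_eq_ite]
  have hc : ∀ p q r s : Fin (m + 1) × Bool,
      ∑ i, ∑ j, ∑ k, ∑ l, A (e i) (e j) (e k) (e l) *
        (om (e i) (e j) (e p) (e q) * om (e k) (e l) (e r) (e s)) =
      4 * A (e p) (e q) (e r) (e s) := by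
    intro p q r s
    have h1 : ∀ i j : Fin (m + 1) × Bool, ∑ k, ∑ l, A (e i) (e j) (e k) (e l) *
        (om (e i) (e j) (e p) (e q) * om (e k) (e l) (e r) (e s)) =
        2 * (A (e i) (e j) (e r) (e s) * om (e i) (e j) (e p) (e q)) := by
      intro i j
      have h2 : ∀ k l : Fin (m + 1) × Bool, A (e i) (e j) (e k) (e l) *
        (om (e i) (e j) (e p) (e q) * om (e k) (e l) (e r) (e s)) =
          om (e i) (e j) (e p) (e q) *
            ((if k = r then (if l = s then A (e i) (e j) (e k) (e l) else 0) else 0) -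
            (if k = s then (if l = r then A (e i) (e j) (e k) (e l) else 0) else 0)) := by
        intro k l
        rw [hom k l r s]
        split_ifs <;> ring
      simp only [h2, ← Finset.mul_sum, Finset.sum_sub_distrib]
      have h3 : ∀ (a b : Fin (m + 1) × Bool), (∑ k, ∑ l, if k = a then
          (if l = b then A (e i) (e j) (e k) (e l) else 0) else 0) = A (e i) (e j) (e a) (e b) := by
        intro a b
        rw [Finset.sum_eq_single a]
        · simp
        · intro c _ hc; simp [hc]
        · intro h; exact absurd (Finset.mem_univ _) h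
      rw [h3, h3, bi_anti34 hA (e i) (e j) (e r) (e s)]
      ring
    simp only [h1, ← Finset.mul_sum]
    have h2 : ∀ i j : Fin (m + 1) × Bool, A (e i) (e j) (e r) (e s) * om (e i) (e j) (e p) (e q) =
          ((if i = p then (if j = q then A (e i) (e j) (e r) (e s) else 0) else 0) -
            (if i = q then (if j = p then A (e i) (e j) (e r) (e s) else 0) else 0)) := by
      intro k l
      rw [hom k l p q]
      split_ifs <;> ring
    simp only [h2, Finset.sum_sub_distrib]
    have h3 : ∀ (a b : Fin (m + 1) × Bool), (∑ k, ∑ l, if k = a then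
          (if l = b then A (e k) (e l) (e r) (e s) else 0) else 0) = A (e a) (e b) (e r) (e s) := by
      intro a b
      rw [Finset.sum_eq_single a]
      · simp
      · intro c _ hc; simp [hc]
      · intro h; exact absurd (Finset.mem_univ _) h
    rw [h3, h3, hA.anti (e p) (e q)]
    ring
  simp only [QQ_apply, Finset.mul_sum]
  have hsw : ∑ i, ∑ j, ∑ k, ∑ l, ∑ σ : Equiv.Perm (Fin (m + 1) × Bool),
      ∑ τ : Equiv.Perm (Fin (m + 1) × Bool), A (e i) (e j) (e k) (e l) *
      (sn σ * sn τ * (om (e i) (e j) (e (σ (0, false))) (e (σ (0, true))) *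
        om (e k) (e l) (e (τ (0, false))) (e (τ (0, true))) *
        ∏ b : Fin m, R (e (σ (b.succ, false))) (e (σ (b.succ, true))) (e (τ (b.succ, false)))
          (e (τ (b.succ, true))))) =
      ∑ σ : Equiv.Perm (Fin (m + 1) × Bool), ∑ τ : Equiv.Perm (Fin (m + 1) × Bool),
      (sn σ * sn τ * ∏ b : Fin m, R (e (σ (b.succ, false))) (e (σ (b.succ, true)))
        (e (τ (b.succ, false))) (e (τ (b.succ, true)))) *
      ∑ i, ∑ j, ∑ k, ∑ l, A (e i) (e j) (e k) (e l) *
        (om (e i) (e j) (e (σ (0, false))) (e (σ (0, true))) *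
        om (e k) (e l) (e (τ (0, false))) (e (τ (0, true)))) := by
    simp only [Finset.mul_sum]
    rw [sum_comm42]
    refine Finset.sum_congr rfl fun σ _ => Finset.sum_congr rfl fun τ _ =>
      Finset.sum_congr rfl fun i _ => Finset.sum_congr rfl fun j _ =>
      Finset.sum_congr rfl fun k _ => Finset.sum_congr rfl fun l _ => ?_
    ring
  rw [hsw]
  simp only [hc]
  rw [MGX_apply]
  simp only [Finset.mul_sum]
  refine Finset.sum_congr rfl fun σ _ => Finset.sum_congr rfl fun τ _ => ?_
  ring

end cof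

end Pool.Agent.H349.RP
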