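import Pool.Graph.R_seed8.W669.HD.Main

/-!
# Two forms with nonnegative sectional values
-/

set_option autoImplicit false

namespace Pool.Agent.H349.RP

open Finset Pool.Agent.W666.GB

section coord

variable {I : Type} [Fintype I] [DecidableEq I]

/-- trace of a product of positive semidefinite matrices -/
theorem tr_psd {A B : I → I → ℝ} (hA : ∀ v : I → ℝ, 0 ≤ ∑ a, ∑ b, A a b * (v a * v b))
    (hBs : ∀ a b, B b a = B a b) (hB : ∀ v : I → ℝ, 0 ≤ ∑ a, ∑ b, B a b * (v a * v b)) :
    0 ≤ ∑ a, ∑ b, A a b * B a b := by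
  classical
  have hM : (Matrix.of B).PosSemidef := by
    refine Matrix.PosSemidef.of_dotProduct_mulVec_nonneg ?_ ?_
    · ext a b
      simp [Matrix.conjTranspose_apply, hBs]
    · intro v
      have h := hB v
      have e : star v ⬝ᵥ ((Matrix.of B).mulVec v) = ∑ a, ∑ b, B a b * (v a * v b) := by
        simp only [dotProduct, Matrix.mulVec, Pi.star_apply, star_trivial, Matrix.of_apply,
          Finset.mul_sum]
        refine Finset.sum_congr rfl fun a _ => Finset.sum_congr rfl fun b _ => ?_
        ring
      rw [e]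
      exact h
  obtain ⟨m, C, hC⟩ := Matrix.posSemidef_iff_eq_sum_vecMulVec.1 hM
  have hB' : ∀ a b, B a b = ∑ k, C k a * C k b := by
    intro a b
    have h := congrFun (congrFun hC a) b
    rw [Matrix.sum_apply] at h
    simpa [Matrix.vecMulVec_apply] using h
  have e : ∑ a, ∑ b, A a b * B a b = ∑ k, ∑ a, ∑ b, A a b * (C k a * C k b) := by
    simp only [hB', Finset.mul_sum]
    have h1 : ∀ a, ∑ b, ∑ k, A a b * (C k a * C k b) = ∑ k, ∑ b, A a b * (C k a * C k b) :=
      fun a => Finset.sum_comm
    simp only [h1]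
    exact Finset.sum_comm
  rw [e]
  exact Finset.sum_nonneg fun k _ => hA _

/-- product of four signs -/
def s4 (s : I → Bool) (i j k l : I) : ℝ := sg (s i) * sg (s j) * sg (s k) * sg (s l)

theorem av_two (i j : I) : av (fun s : I → Bool => sg (s i) * sg (s j)) = if i = j then 1 else 0 := by
  split_ifs with h
  · subst h
    simp only [sg_mul_self, av_const]
  · rw [av_resample i]
    have : ∀ (s : I → Bool) (v : Bool), sg (Function.update s i v i) *
        sg (Function.update s i v j) = sg v * sg (s j) := by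
      intro s v
      rw [Function.update_self, Function.update_of_ne (Ne.symm h)]
    simp only [this, av_mul_right]
    simp only [av_sg, zero_mul, av_const]

theorem av_four0 {i j k l : I} (h1 : i ≠ j) (h2 : i ≠ k) (h3 : i ≠ l) :
    av (fun s : I → Bool => s4 s i j k l) = 0 := by
  rw [av_resample i]
  have : ∀ (s : I → Bool) (v : Bool), s4 (Function.update s i v) i j k l =
      sg v * (sg (s j) * sg (s k) * sg (s l)) := by
    intro s v
    unfold s4
    rw [Function.update_self, Function.update_of_ne (Ne.symm h1),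
      Function.update_of_ne (Ne.symm h2), Function.update_of_ne (Ne.symm h3)]
    ring
  simp only [this, av_mul_right]
  simp only [av_sg, zero_mul, av_const]

theorem av_four (i j k l : I) : av (fun s : I → Bool => s4 s i j k l) =
    (if i = j then 1 else 0) * (if k = l then 1 else 0) +
    (if i = k then 1 else 0) * (if j = l then 1 else 0) +
    (if i = l then 1 else 0) * (if j = k then 1 else 0) -
    2 * ((if i = j then 1 else 0) * (if i = k then 1 else 0) * (if i = l then 1 else 0)) := by
  by_cases h1 : i = j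
  · subst h1
    have : ∀ s : I → Bool, s4 s i i k l = sg (s k) * sg (s l) := by
      intro s; unfold s4; rw [sg_mul_self]; ring
    simp only [this, av_two]
    by_cases h2 : i = k
    · subst h2
      by_cases h3 : i = l
      · simp [h3]; norm_num
      · simp [h3]
    · by_cases h3 : i = l
      · subst h3; simp [h2, Ne.symm h2]
      · simp [h2, h3]
  by_cases h2 : i = k
  · subst h2
    have : ∀ s : I → Bool, s4 s i j i l = sg (s j) * sg (s l) := by
      intro s; unfold s4
      have := sg_mul_self (s i)
      linear_combination (sg (s j) * sg (s l)) * this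
    simp only [this, av_two]
    have h1' : ¬ j = i := fun h => h1 h.symm
    simp [h1, h1']
  by_cases h3 : i = l
  · subst h3
    have : ∀ s : I → Bool, s4 s i j k i = sg (s j) * sg (s k) := by
      intro s; unfold s4
      have := sg_mul_self (s i)
      linear_combination (sg (s j) * sg (s k)) * this
    simp only [this, av_two]
    simp [h1, h2]
  · rw [av_four0 h1 h2 h3]
    simp [h1, h2, h3]

/-- symmetries of the components of a bivector form -/
structure Bi4 (q : I → I → I → I → ℝ) : Prop where
  anti : ∀ i j k l, q j i k l = - q i j k l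
  pair : ∀ i j k l, q k l i j = q i j k l

/-- nonnegative values on decomposable bivectors -/
def Sec4 (q : I → I → I → I → ℝ) : Prop :=
  ∀ a b : I → ℝ, 0 ≤ ∑ i, ∑ j, ∑ k, ∑ l, q i j k l * (a i * b j * a k * b l)

/-- Ricci contraction -/
def Rc (q : I → I → I → I → ℝ) (a b : I) : ℝ := ∑ i, q i a i b

theorem sec4_single {q : I → I → I → I → ℝ} (h : Sec4 q) (i : I) (v : I → ℝ) :
    0 ≤ ∑ a, ∑ b, q i a i b * (v a * v b) := by
  have h1 := h (fun j => if j = i then 1 else 0) v
  have h2 : ∀ i' j k l : I, q i' j k l * ((if i' = i then 1 else 0) * v j *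
      (if k = i then 1 else 0) * v l) = if i' = i then (if k = i then
        q i' j k l * (v j * v l) else 0) else 0 := by
    intro i' j k l
    split_ifs <;> ring
  simp only [h2] at h1
  rw [Finset.sum_eq_single i] at h1
  · refine h1.trans (le_of_eq ?_)
    refine Finset.sum_congr rfl fun a _ => ?_
    rw [Finset.sum_eq_single i]
    · refine Finset.sum_congr rfl fun b _ => ?_
      simp
    · intro c _ hc; simp [hc]
    · intro h; exact absurd (Finset.mem_univ _) h
  · intro c _ hc; simp [hc]
  · intro h; exact absurd (Finset.mem_univ _) h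

theorem Rc_psd {q : I → I → I → I → ℝ} (h : Sec4 q) (v : I → ℝ) :
    0 ≤ ∑ a, ∑ b, Rc q a b * (v a * v b) := by
  have h1 : ∑ a, ∑ b, Rc q a b * (v a * v b) = ∑ i, ∑ a, ∑ b, q i a i b * (v a * v b) := by
    simp only [Rc, Finset.sum_mul]
    have h2 : ∀ a, ∑ b, ∑ i, q i a i b * (v a * v b) = ∑ i, ∑ b, q i a i b * (v a * v b) :=
      fun a => Finset.sum_comm
    simp only [h2]
    exact Finset.sum_comm
  rw [h1]
  exact Finset.sum_nonneg fun i _ => sec4_single h i v

/-- the contraction with `x` in the first and third argument -/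
def Jx (q : I → I → I → I → ℝ) (x : I → ℝ) (a b : I) : ℝ := ∑ i, ∑ j, q i a j b * (x i * x j)

theorem Jx_psd {q : I → I → I → I → ℝ} (h : Sec4 q) (x v : I → ℝ) :
    0 ≤ ∑ a, ∑ b, Jx q x a b * (v a * v b) := by
  have h1 := h x v
  refine h1.trans (le_of_eq ?_)
  simp only [Jx, Finset.sum_mul]
  have e1 : ∑ i, ∑ j, ∑ k, ∑ l, q i j k l * (x i * v j * x k * v l) =
      ∑ j, ∑ i, ∑ k, ∑ l, q i j k l * (x i * v j * x k * v l) := Finset.sum_comm
  rw [e1]
  refine Finset.sum_congr rfl fun a _ => ?_
  have e2 : ∀ i, ∑ k, ∑ l, q i a k l * (x i * v a * x k * v l) =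
      ∑ l, ∑ k, q i a k l * (x i * v a * x k * v l) := fun i => Finset.sum_comm
  simp only [e2]
  rw [Finset.sum_comm]
  refine Finset.sum_congr rfl fun b _ => Finset.sum_congr rfl fun i _ =>
    Finset.sum_congr rfl fun j _ => ?_
  ring

theorem Jx_symm {q : I → I → I → I → ℝ} (h : Bi4 q) (x : I → ℝ) (a b : I) :
    Jx q x b a = Jx q x a b := by
  unfold Jx
  rw [Finset.sum_comm]
  refine Finset.sum_congr rfl fun i _ => Finset.sum_congr rfl fun j _ => ?_
  rw [h.pair i a j b]; ring

theorem ite_sum (i : I) (f : I → ℝ) : ∑ j, f j * (if i = j then 1 else 0) = f i := by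
  simp

/-- the inequality for two forms -/
theorem bil {q t : I → I → I → I → ℝ} (hq : Bi4 q) (ht : Bi4 t)
    (hb : ∀ i j k l, t i j k l + t j k i l + t k i j l = 0) (sq : Sec4 q) (st : Sec4 t) :
    2 * ∑ i, ∑ a, ∑ b, q i a i b * t i a i b ≤ ∑ a, ∑ b, Rc q a b * Rc t a b +
      3 / 2 * ∑ i, ∑ j, ∑ k, ∑ l, q i j k l * t i j k l := by
  have h0 : ∀ s : I → Bool, 0 ≤ ∑ a, ∑ b, Jx q (fun i => sg (s i)) a b *
      Jx t (fun i => sg (s i)) a b := fun s =>
    tr_psd (Jx_psd sq _) (Jx_symm ht _) (Jx_psd st _)
  have h1 := av_nonneg h0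
  have h2 : ∀ s : I → Bool, (∑ a, ∑ b, Jx q (fun i => sg (s i)) a b *
      Jx t (fun i => sg (s i)) a b) =
      ∑ a, ∑ b, ∑ i, ∑ j, ∑ k, ∑ l, (q i a j b * t k a l b) * s4 s i j k l := by
    intro s
    refine Finset.sum_congr rfl fun a _ => Finset.sum_congr rfl fun b _ => ?_
    unfold Jx
    rw [Finset.sum_mul]
    refine Finset.sum_congr rfl fun i _ => ?_
    rw [Finset.sum_mul]
    refine Finset.sum_congr rfl fun j _ => ?_
    rw [Finset.mul_sum]
    refine Finset.sum_congr rfl fun k _ => ?_
    rw [Finset.mul_sum]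
    refine Finset.sum_congr rfl fun l _ => ?_
    unfold s4
    ring
  simp only [h2, av_sum, av_mul_left, av_four] at h1
  have h3 : ∀ a b : I, ∑ i, ∑ j, ∑ k, ∑ l, (q i a j b * t k a l b) *
      ((if i = j then 1 else 0) * (if k = l then 1 else 0) +
      (if i = k then 1 else 0) * (if j = l then 1 else 0) +
      (if i = l then 1 else 0) * (if j = k then 1 else 0) -
      2 * ((if i = j then 1 else 0) * (if i = k then 1 else 0) * (if i = l then 1 else 0))) =
      Rc q a b * Rc t a b + ∑ i, ∑ j, q i a j b * t i a j b + ∑ i, ∑ j, q i a j b * t j a i b -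
      2 * ∑ i, q i a i b * t i a i b := by
    intro a b
    have e1 : ∀ i j k l : I, (q i a j b * t k a l b) *
      ((if i = j then 1 else 0) * (if k = l then 1 else 0) +
      (if i = k then 1 else 0) * (if j = l then 1 else 0) +
      (if i = l then 1 else 0) * (if j = k then 1 else 0) -
      2 * ((if i = j then 1 else 0) * (if i = k then 1 else 0) * (if i = l then 1 else 0))) =
      (q i a j b * (if i = j then 1 else 0)) * (t k a l b * (if k = l then 1 else 0)) +
      (q i a j b * t k a l b * (if j = l then 1 else 0)) * (if i = k then 1 else 0) +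
      (q i a j b * t k a l b * (if i = l then 1 else 0)) * (if j = k then 1 else 0) -
      2 * ((q i a j b * t k a l b * (if i = l then 1 else 0)) * (if i = k then 1 else 0) *
        (if i = j then 1 else 0)) := by
      intro i j k l
      ring
    simp only [e1, Finset.sum_add_distrib, Finset.sum_sub_distrib, ← Finset.mul_sum,
      ← Finset.sum_mul, ite_sum]
    rfl
  simp only [h3] at h1
  simp only [Finset.sum_add_distrib, Finset.sum_sub_distrib, ← Finset.mul_sum] at h1
  have h4 : ∑ a, ∑ b, ∑ i, q i a i b * t i a i b = ∑ i, ∑ a, ∑ b, q i a i b * t i a i b := by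
    have : ∀ a, ∑ b, ∑ i, q i a i b * t i a i b = ∑ i, ∑ b, q i a i b * t i a i b :=
      fun a => Finset.sum_comm
    simp only [this]
    exact Finset.sum_comm
  have h5 : ∑ a, ∑ b, ∑ i, ∑ j, q i a j b * t i a j b =
      ∑ i, ∑ j, ∑ k, ∑ l, q i j k l * t i j k l := by
    have e1 : ∀ a, ∑ b, ∑ i, ∑ j, q i a j b * t i a j b = ∑ i, ∑ j, ∑ b, q i a j b * t i a j b := by
      intro a
      rw [Finset.sum_comm]
      exact Finset.sum_congr rfl fun i _ => Finset.sum_comm
    simp only [e1]
    exact Finset.sum_comm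
  have h6 : 2 * ∑ a, ∑ b, ∑ i, ∑ j, q i a j b * t j a i b =
      ∑ a, ∑ b, ∑ i, ∑ j, q i a j b * t i a j b := by
    have e0 : ∀ f : I → I → I → I → ℝ, ∑ a, ∑ b, ∑ i, ∑ j, f a b i j =
        ∑ a, ∑ b, ∑ i, ∑ j, f i b a j := by
      intro f
      have g1 : ∀ a, ∑ b, ∑ i, ∑ j, f a b i j = ∑ i, ∑ b, ∑ j, f a b i j :=
        fun a => Finset.sum_comm
      have g2 : ∀ a, ∑ b, ∑ i, ∑ j, f i b a j = ∑ i, ∑ b, ∑ j, f i b a j :=
        fun a => Finset.sum_comm
      simp only [g1, g2]
      exact Finset.sum_comm
    have e1 : ∑ a, ∑ b, ∑ i, ∑ j, q i a j b * t j a i b =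
        ∑ a, ∑ b, ∑ i, ∑ j, -(q i a j b * t j i a b) := by
      rw [e0]
      refine Finset.sum_congr rfl fun a _ => Finset.sum_congr rfl fun b _ =>
        Finset.sum_congr rfl fun i _ => Finset.sum_congr rfl fun j _ => ?_
      rw [hq.anti i a j b]; ring
    rw [two_mul]
    nth_rewrite 2 [e1]
    simp only [← Finset.sum_add_distrib]
    refine Finset.sum_congr rfl fun a _ => Finset.sum_congr rfl fun b _ =>
      Finset.sum_congr rfl fun i _ => Finset.sum_congr rfl fun j _ => ?_
    have g1 := hb j a i b
    have g2 := ht.anti j i a b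
    have g3 := ht.anti i a j b
    linear_combination (q i a j b) * g1 - (q i a j b) * g2 - (q i a j b) * g3
  rw [h5] at h1 h6
  rw [h4] at h1
  linarith

/-- comparison with the unit tensor: `r` bounds the Ricci curvatures of `t` on the coordinate
hyperplanes -/
theorem comp {q t : I → I → I → I → ℝ} (hq : Bi4 q) (ht : Bi4 t)
    (hb : ∀ i j k l, t i j k l + t j k i l + t k i j l = 0) (sq : Sec4 q) (st : Sec4 t)
    {r : ℝ} (hr : ∀ (k : I) (v : I → ℝ), v k = 0 →
      ∑ a, ∑ b, Rc t a b * (v a * v b) - ∑ a, ∑ b, t k a k b * (v a * v b) ≤ r * ∑ a, v a ^ 2) :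
    -(2 / 3 * r * ∑ i, ∑ j, q i j i j) ≤ ∑ i, ∑ j, ∑ k, ∑ l, q i j k l * t i j k l := by
  have h1 := bil hq ht hb sq st
  have hq0 : ∀ k b : I, q k k k b = 0 := fun k b => by
    have := hq.anti k k k b
    linarith
  have hq1 : ∀ k a : I, q k a k k = 0 := fun k a => by
    rw [← hq.pair k a k k]; exact hq0 k a
  -- the form on the hyperplane
  have h2 : ∀ k : I, 0 ≤ ∑ a, ∑ b, q k a k b *
      ((if a = k then 0 else 1) * (if b = k then 0 else 1) *
        (r * (if a = b then 1 else 0) + t k a k b - Rc t a b)) := by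
    intro k
    refine tr_psd (sec4_single sq k) ?_ ?_
    · intro a b
      have e1 : Rc t b a = Rc t a b := Finset.sum_congr rfl fun i _ => ht.pair i a i b
      have e2 : t k b k a = t k a k b := ht.pair k a k b
      simp only [e1, e2, eq_comm (a := b) (b := a)]
      ring
    · intro v
      have h3 := hr k (fun a => (if a = k then 0 else 1) * v a) (by simp)
      have e1 : ∑ a, ∑ b, ((if a = k then 0 else 1) * (if b = k then 0 else 1) *
          (r * (if a = b then 1 else 0) + t k a k b - Rc t a b)) * (v a * v b) =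
          r * ∑ a, ((if a = k then 0 else 1) * v a) ^ 2 -
          (∑ a, ∑ b, Rc t a b * (((if a = k then 0 else 1) * v a) *
            ((if b = k then 0 else 1) * v b)) -
          ∑ a, ∑ b, t k a k b * (((if a = k then 0 else 1) * v a) *
            ((if b = k then 0 else 1) * v b))) := by
        have e2 : ∀ a b : I, ((if a = k then 0 else 1) * (if b = k then 0 else 1) *
          (r * (if a = b then 1 else 0) + t k a k b - Rc t a b)) * (v a * v b) =
          (r * (((if a = k then 0 else 1) * v a) * ((if b = k then 0 else 1) * v b))) *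
            (if a = b then 1 else 0) -
          (Rc t a b * (((if a = k then 0 else 1) * v a) * ((if b = k then 0 else 1) * v b)) -
          t k a k b * (((if a = k then 0 else 1) * v a) *
            ((if b = k then 0 else 1) * v b))) := by
          intro a b
          ring
        simp only [e2, Finset.sum_sub_distrib, ite_sum]
        congr 1
        rw [Finset.mul_sum]
        refine Finset.sum_congr rfl fun a _ => ?_
        ring
      rw [e1]
      linarith
  have h3 : ∀ k : I, ∑ a, ∑ b, q k a k b *
      ((if a = k then 0 else 1) * (if b = k then 0 else 1) *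
        (r * (if a = b then 1 else 0) + t k a k b - Rc t a b)) =
      r * ∑ a, q k a k a + ∑ a, ∑ b, q k a k b * t k a k b - ∑ a, ∑ b, q k a k b * Rc t a b := by
    intro k
    have e1 : ∀ a b : I, q k a k b * ((if a = k then 0 else 1) * (if b = k then 0 else 1) *
        (r * (if a = b then 1 else 0) + t k a k b - Rc t a b)) =
        (r * q k a k b) * (if a = b then 1 else 0) + q k a k b * t k a k b -
          q k a k b * Rc t a b := by
      intro a b
      by_cases ha : a = k
      · subst ha; rw [hq0]; ring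
      by_cases hb : b = k
      · subst hb; rw [hq1]; ring
      rw [if_neg ha, if_neg hb]; ring
    simp only [e1, Finset.sum_add_distrib, Finset.sum_sub_distrib, ite_sum, ← Finset.mul_sum]
  have h4 := Finset.sum_nonneg (s := (univ : Finset I)) fun k _ => h2 k
  simp only [h3, Finset.sum_add_distrib, Finset.sum_sub_distrib, ← Finset.mul_sum] at h4
  have h5 : ∑ k, ∑ a, ∑ b, q k a k b * Rc t a b = ∑ a, ∑ b, Rc q a b * Rc t a b := by
    simp only [Rc, Finset.sum_mul]
    rw [Finset.sum_comm]
    refine Finset.sum_congr rfl fun a _ => ?_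
    exact Finset.sum_comm
  have h6 : 0 ≤ ∑ i, ∑ a, ∑ b, q i a i b * t i a i b :=
    Finset.sum_nonneg fun i _ =>
      tr_psd (sec4_single sq i) (fun a b => ht.pair i a i b) (sec4_single st i)
  rw [h5] at h4
  linarith

end coord

end Pool.Agent.H349.RP
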