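import Pool.Agent.H349.RP.B
import Pool.Agent.H349.RP.C

/-!
# Bounds for one step of the recursion
-/

set_option autoImplicit false

namespace Pool.Agent.H349.RP

open Finset Module Pool.Agent.W666.GB Pool.Agent.W669.HD

section bi

variable {V : Type} [NormedAddCommGroup V] [InnerProductSpace ℝ V]

theorem curv_bi {R : V → V → V → V → ℝ} (h : AlgCurv R) : BiForm R :=
  ⟨h.add, h.smul, h.anti, h.pair⟩

theorem bi_zero1 {K : V → V → V → V → ℝ} (h : BiForm K) (y z w : V) : K 0 y z w = 0 := by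
  have := h.smul 0 0 y z w
  rwa [zero_smul, zero_mul] at this

/-- the vector with coordinates `x` -/
noncomputable def vc {I : Type} [Fintype I] (f : I → V) (x : I → ℝ) : V := ∑ i, x i • f i

theorem l1 {K : V → V → V → V → ℝ} (h : BiForm K) {I : Type} [Fintype I] (f : I → V)
    (x : I → ℝ) (y z w : V) : K (vc f x) y z w = ∑ i, x i * K (f i) y z w := by
  let L : V →ₗ[ℝ] ℝ :=
    { toFun := fun u => K u y z w
      map_add' := fun u v => h.add u v y z w
      map_smul' := fun t u => h.smul t u y z w }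
  have h1 : L (vc f x) = ∑ i, x i * L (f i) := by
    unfold vc
    rw [map_sum]
    exact Finset.sum_congr rfl fun a _ => by rw [map_smul, smul_eq_mul]
  exact h1

theorem l2 {K : V → V → V → V → ℝ} (h : BiForm K) {I : Type} [Fintype I] (f : I → V)
    (x : I → ℝ) (y z w : V) : K y (vc f x) z w = ∑ i, x i * K y (f i) z w := by
  rw [h.anti (vc f x) y z w, l1 h, ← Finset.sum_neg_distrib]
  exact Finset.sum_congr rfl fun i _ => by rw [h.anti (f i) y z w]; ring

theorem l3 {K : V → V → V → V → ℝ} (h : BiForm K) {I : Type} [Fintype I] (f : I → V)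
    (x : I → ℝ) (y z w : V) : K y z (vc f x) w = ∑ i, x i * K y z (f i) w := by
  rw [h.pair (vc f x) w y z, l1 h]
  exact Finset.sum_congr rfl fun i _ => by rw [h.pair (f i) w y z]

theorem l4 {K : V → V → V → V → ℝ} (h : BiForm K) {I : Type} [Fintype I] (f : I → V)
    (x : I → ℝ) (y z w : V) : K y z w (vc f x) = ∑ i, x i * K y z w (f i) := by
  rw [h.pair w (vc f x) y z, l2 h]
  exact Finset.sum_congr rfl fun i _ => by rw [h.pair w (f i) y z]

theorem comp_eq {K : V → V → V → V → ℝ} (h : BiForm K) {I : Type} [Fintype I] (f : I → V)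
    (a b c d : I → ℝ) :
    ∑ i, ∑ j, ∑ k, ∑ l, K (f i) (f j) (f k) (f l) * (a i * b j * c k * d l) =
      K (vc f a) (vc f b) (vc f c) (vc f d) := by
  simp only [l1 h f a, l2 h f b, l3 h f c, l4 h f d, Finset.mul_sum]
  refine Finset.sum_congr rfl fun i _ => Finset.sum_congr rfl fun j _ =>
    Finset.sum_congr rfl fun k _ => Finset.sum_congr rfl fun l _ => by ring

/-- from orthonormal pairs to all pairs -/
theorem bi_sec {K : V → V → V → V → ℝ} (h : BiForm K)
    (hs : ∀ x y : V, ‖x‖ = 1 → ‖y‖ = 1 → inner ℝ x y = 0 → 0 ≤ K x y x y) (x y : V) :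
    0 ≤ K x y x y := by
  have hself : ∀ x z w : V, K x x z w = 0 := fun x z w => by
    have := h.anti x x z w
    linarith
  by_cases hx : x = 0
  · subst hx
    rw [bi_zero1 h]
  have hx0 : ‖x‖ ≠ 0 := norm_ne_zero_iff.2 hx
  obtain ⟨x', hx', hxx⟩ : ∃ x' : V, ‖x'‖ = 1 ∧ x = ‖x‖ • x' := by
    refine ⟨(‖x‖)⁻¹ • x, ?_, ?_⟩
    · rw [norm_smul, norm_inv, norm_norm, inv_mul_cancel₀ hx0]
    · rw [smul_smul, mul_inv_cancel₀ hx0, one_smul]
  obtain ⟨z, hz, hyz⟩ : ∃ z : V, inner ℝ x' z = 0 ∧ y = (inner ℝ x' y) • x' + z := by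
    refine ⟨y - (inner ℝ x' y) • x', ?_, by abel⟩
    rw [inner_sub_right, inner_smul_right, real_inner_self_eq_norm_sq, hx']; ring
  have h1 : K x y x y = ‖x‖ ^ 2 * K x' z x' z := by
    rw [hxx, norm_smul, norm_norm, hx', mul_one]
    rw [h.smul, bi_smul3 h, hyz, bi_add2 h, bi_smul2 h, hself, bi_add4 h, bi_smul4 h]
    have h2 : K x' z x' x' = 0 := by
      rw [← h.pair x' z x' x', hself]
    rw [h2]; ring
  rw [h1]
  refine mul_nonneg (sq_nonneg _) ?_
  by_cases hz0 : z = 0
  · subst hz0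
    rw [h.anti 0 x' x' 0, bi_zero1 h, neg_zero]
  have hzn : ‖z‖ ≠ 0 := norm_ne_zero_iff.2 hz0
  obtain ⟨z', hz', hzz⟩ : ∃ z' : V, ‖z'‖ = 1 ∧ z = ‖z‖ • z' := by
    refine ⟨(‖z‖)⁻¹ • z, ?_, ?_⟩
    · rw [norm_smul, norm_inv, norm_norm, inv_mul_cancel₀ hzn]
    · rw [smul_smul, mul_inv_cancel₀ hzn, one_smul]
  have h3 : inner ℝ x' z' = 0 := by
    rw [hzz, inner_smul_right] at hz
    rcases mul_eq_zero.1 hz with h4 | h4
    · exact absurd h4 hzn
    · exact h4
  have h5 := hs x' z' hx' hz' h3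
  rw [hzz, bi_smul2 h, bi_smul4 h]
  nlinarith [mul_nonneg (sq_nonneg ‖z‖) h5]

end bi

section hyp

variable {V : Type} [NormedAddCommGroup V] [InnerProductSpace ℝ V]

/-- nonnegative sectional curvature, Ricci curvatures of the restrictions to subspaces of
dimension `2 j - 1` at most `r j` -/
structure Hyp (T : V → V → V → V → ℝ) (r : ℕ → ℝ) : Prop where
  curv : AlgCurv T
  sec : ∀ x y, 0 ≤ T x y x y
  ric : ∀ (j : ℕ) (ι : Type) [Fintype ι] (u : ι → V), Fintype.card ι + 1 = 2 * j →
    Orthonormal ℝ u → ∀ f : ι → ℝ, ∑ i, T (u i) (vc u f) (u i) (vc u f) ≤ r j * ∑ i, f i ^ 2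

/-- sum of squares of simple bivectors -/
noncomputable def sbv {N : ℕ} (a b : Fin N → V) (x y z w : V) : ℝ :=
  ∑ k, om (a k) (b k) x y * om (a k) (b k) z w

theorem sbv_curv {N : ℕ} (a b : Fin N → V) : AlgCurv (sbv a b) where
  add x x' y z w := by
    simp only [sbv, ← Finset.sum_add_distrib]
    refine Finset.sum_congr rfl fun k _ => ?_
    simp only [om, inner_add_right]; ring
  smul t x y z w := by
    simp only [sbv, Finset.mul_sum]
    refine Finset.sum_congr rfl fun k _ => ?_
    simp only [om, inner_smul_right]; ring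
  anti x y z w := by
    simp only [sbv, ← Finset.sum_neg_distrib]
    refine Finset.sum_congr rfl fun k _ => ?_
    simp only [om]; ring
  pair x y z w := by
    simp only [sbv]
    refine Finset.sum_congr rfl fun k _ => ?_
    ring
  bianchi x y z w := by
    simp only [sbv, ← Finset.sum_add_distrib]
    refine Finset.sum_eq_zero fun k _ => ?_
    simp only [om]; ring

/-- `U` is the sum of squares of simple bivectors and of a form with `Hyp` -/
def HP (U : V → V → V → V → ℝ) (r : ℕ → ℝ) : Prop :=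
  ∃ (N : ℕ) (a b : Fin N → V) (T : V → V → V → V → ℝ), Hyp T r ∧
    ∀ x y z w, U x y z w = sbv a b x y z w + T x y z w

theorem HP.curv {U : V → V → V → V → ℝ} {r : ℕ → ℝ} (h : HP U r) : AlgCurv U := by
  obtain ⟨N, a, b, T, hT, hU⟩ := h
  have h1 := add_curv (sbv_curv a b) hT.curv
  have h2 : U = addT (sbv a b) T := by
    funext x y z w
    exact hU x y z w
  rw [h2]
  exact h1

theorem HP.sec {U : V → V → V → V → ℝ} {r : ℕ → ℝ} (h : HP U r) (x y : V) : 0 ≤ U x y x y := by
  obtain ⟨N, a, b, T, hT, hU⟩ := h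
  rw [hU]
  refine add_nonneg (Finset.sum_nonneg fun k _ => ?_) (hT.sec x y)
  exact mul_self_nonneg _

/-- the tensor `T` shifted by the constant curvature `s` -/
noncomputable def sR (s : ℝ) (T : V → V → V → V → ℝ) : V → V → V → V → ℝ :=
  fun x y z w => s * unitT x y z w + T x y z w

theorem unitT_bi : BiForm (unitT : V → V → V → V → ℝ) := by
  have h := curv_bi (unit_curv (V := V) 1)
  simpa only [one_mul] using h

theorem sR_bi {T : V → V → V → V → ℝ} (hT : BiForm T) (s : ℝ) : BiForm (sR s T) where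
  add x x' y z w := by simp only [sR, unitT_bi.add, hT.add]; ring
  smul t x y z w := by simp only [sR, unitT_bi.smul, hT.smul]; ring
  anti x y z w := by simp only [sR]; rw [unitT_bi.anti, hT.anti]; ring
  pair x y z w := by simp only [sR]; rw [unitT_bi.pair, hT.pair]

end hyp

end Pool.Agent.H349.RP
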