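import Pool.Agent.H349.RP.D

/-!
# Reduction of the dimension by two
-/

set_option autoImplicit false

namespace Pool.Agent.H349.RP

open Finset Module Pool.Agent.W666.GB Pool.Agent.W669.HD

section red

variable {V : Type} [NormedAddCommGroup V] [InnerProductSpace ℝ V] {m : ℕ}

theorem adapt (e : OrthonormalBasis (Fin (m + 1) × Bool) ℝ V) {x y : V} (hx : ‖x‖ = 1)
    (hy : ‖y‖ = 1) (hxy : inner ℝ x y = 0) :
    ∃ e' : OrthonormalBasis (Fin (m + 1) × Bool) ℝ V, e' (0, false) = x ∧ e' (0, true) = y := by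
  classical
  have : FiniteDimensional ℝ V := Module.Finite.of_basis e.toBasis
  have hc : finrank ℝ V = Fintype.card (Fin (m + 1) × Bool) := finrank_eq_card_basis e.toBasis
  let v : Fin (m + 1) × Bool → V := fun j => if j.2 then y else x
  let s : Set (Fin (m + 1) × Bool) := {(0, false), (0, true)}
  have hv : Orthonormal ℝ (s.domRestrict v) := by
    constructor
    · rintro ⟨i, hi⟩
      show ‖v i‖ = 1
      simp only [v]
      split_ifs
      · exact hy
      · exact hx
    · rintro ⟨i, hi⟩ ⟨j, hj⟩ hij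
      show inner ℝ (v i) (v j) = 0
      have hij' : i ≠ j := fun h => hij (Subtype.ext h)
      have hi' : i = (0, false) ∨ i = (0, true) := hi
      have hj' : j = (0, false) ∨ j = (0, true) := hj
      rcases hi' with rfl | rfl <;> rcases hj' with rfl | rfl
      · exact absurd rfl hij'
      · simp only [v]; simpa using hxy
      · simp only [v]; rw [real_inner_comm]; simpa using hxy
      · exact absurd rfl hij'
  obtain ⟨b, hb⟩ := hv.exists_orthonormalBasis_extension_of_card_eq hc
  refine ⟨b, ?_, ?_⟩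
  · rw [hb (0, false) (Or.inl rfl)]; simp [v]
  · rw [hb (0, true) (Or.inr rfl)]; simp [v]

/-- the pull back of a tensor to coordinates -/
noncomputable def pull {I : Type} [Fintype I] (T : V → V → V → V → ℝ) (u : I → V) :
    EuclideanSpace ℝ I → EuclideanSpace ℝ I → EuclideanSpace ℝ I → EuclideanSpace ℝ I → ℝ :=
  fun x y z w => T (vc u fun i => x i) (vc u fun i => y i) (vc u fun i => z i)
    (vc u fun i => w i)

theorem vc_add {I : Type} [Fintype I] (u : I → V) (x y : EuclideanSpace ℝ I) :
    vc u (fun i => (x + y) i) = vc u (fun i => x i) + vc u fun i => y i := by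
  unfold vc
  rw [← Finset.sum_add_distrib]
  exact Finset.sum_congr rfl fun i _ => by beta_reduce; rw [PiLp.add_apply, add_smul]

theorem vc_smul {I : Type} [Fintype I] (u : I → V) (t : ℝ) (x : EuclideanSpace ℝ I) :
    vc u (fun i => (t • x) i) = t • vc u (fun i => x i) := by
  unfold vc
  rw [Finset.smul_sum]
  exact Finset.sum_congr rfl fun i _ => by
    beta_reduce; rw [PiLp.smul_apply, smul_eq_mul, mul_smul]

theorem vc_inner {I : Type} [Fintype I] {u : I → V} (hu : Orthonormal ℝ u)
    (x y : EuclideanSpace ℝ I) :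
    inner ℝ (vc u fun i => x i) (vc u fun i => y i) = inner ℝ x y := by
  unfold vc
  rw [hu.inner_sum (fun i => x i) (fun i => y i) Finset.univ, PiLp.inner_apply]
  refine Finset.sum_congr rfl fun i _ => ?_
  simp [mul_comm]

theorem vc_norm {I : Type} [Fintype I] {u : I → V} (hu : Orthonormal ℝ u)
    (x : EuclideanSpace ℝ I) : ‖vc u fun i => x i‖ = ‖x‖ := by
  have h := vc_inner hu x x
  rw [real_inner_self_eq_norm_sq, real_inner_self_eq_norm_sq] at h
  have h1 := norm_nonneg (vc u fun i => x i)
  have h2 := norm_nonneg x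
  nlinarith

theorem pull_curv {I : Type} [Fintype I] {T : V → V → V → V → ℝ} (hT : AlgCurv T) (u : I → V) :
    AlgCurv (pull T u) where
  add x x' y z w := by simp only [pull, vc_add, hT.add]
  smul t x y z w := by simp only [pull, vc_smul, hT.smul]
  anti x y z w := by simp only [pull]; rw [hT.anti]
  pair x y z w := by simp only [pull]; rw [hT.pair]
  bianchi x y z w := by simp only [pull]; exact hT.bianchi _ _ _ _

theorem vc_orth {I J : Type} [Fintype I] {u : I → V} (hu : Orthonormal ℝ u)
    {w : J → EuclideanSpace ℝ I} (hw : Orthonormal ℝ w) :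
    Orthonormal ℝ (fun i : J => vc u fun j => w i j) := by
  constructor
  · intro i
    rw [vc_norm hu]
    exact hw.1 i
  · intro i j hij
    show inner ℝ (vc u fun k => w i k) (vc u fun k => w j k) = 0
    rw [vc_inner hu]
    exact hw.2 hij

theorem vc_vc {I J : Type} [Fintype I] [Fintype J] (u : I → V) (w : J → EuclideanSpace ℝ I)
    (f : J → ℝ) : vc u (fun k => (vc w f) k) = vc (fun i : J => vc u fun j => w i j) f := by
  unfold vc
  have h1 : ∀ k, (∑ i, f i • w i) k = ∑ i, f i * w i k := by
    intro k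
    simp [Finset.sum_apply]
  simp only [h1, Finset.sum_smul, Finset.smul_sum, smul_smul]
  exact Finset.sum_comm

theorem pull_hyp {I : Type} [Fintype I] {T : V → V → V → V → ℝ} {r : ℕ → ℝ} (hT : Hyp T r)
    {u : I → V} (hu : Orthonormal ℝ u) : Hyp (pull T u) r where
  curv := pull_curv hT.curv u
  sec x y := hT.sec _ _
  ric j ι _ w hc hw f := by
    have h2 := hT.ric j ι _ hc (vc_orth hu hw) f
    simp only [pull, vc_vc]
    exact h2

theorem pull_HP {I : Type} [Fintype I] {U : V → V → V → V → ℝ} {r : ℕ → ℝ} (hU : HP U r)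
    {u : I → V} (hu : Orthonormal ℝ u) : HP (pull U u) r := by
  classical
  obtain ⟨N, a, b, T, hT, hU⟩ := hU
  refine ⟨N, fun k => WithLp.toLp 2 fun i => inner ℝ (a k) (u i),
    fun k => WithLp.toLp 2 fun i => inner ℝ (b k) (u i), pull T u, pull_hyp hT hu, ?_⟩
  have h1 : ∀ (c : V) (x : EuclideanSpace ℝ I), inner ℝ c (vc u fun i => x i) =
      inner ℝ (WithLp.toLp 2 (fun i => inner ℝ c (u i)) : EuclideanSpace ℝ I) x := by
    intro c x
    unfold vc
    rw [inner_sum, PiLp.inner_apply]
    refine Finset.sum_congr rfl fun i _ => ?_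
    rw [inner_smul_right]
    simp [mul_comm]
  intro x y z w
  simp only [pull, hU, sbv, om, h1]

theorem pull_MG {T : V → V → V → V → ℝ} {u : Fin m × Bool → V} (hu : Orthonormal ℝ u) (s : ℝ) :
    MG (fun _ : Fin m => sR s T) u u =
      MG (fun _ : Fin m => sR s (pull T u)) (EuclideanSpace.basisFun (Fin m × Bool) ℝ)
        (EuclideanSpace.basisFun (Fin m × Bool) ℝ) := by
  classical
  have h1 : ∀ i, vc u (fun j => (EuclideanSpace.basisFun (Fin m × Bool) ℝ i) j) = u i := by
    intro i
    unfold vc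
    rw [Finset.sum_eq_single i]
    · simp
    · intro j _ hj; simp [hj]
    · intro h; exact absurd (Finset.mem_univ _) h
  have h2 : ∀ i j, inner ℝ (u i) (u j) = inner ℝ (EuclideanSpace.basisFun (Fin m × Bool) ℝ i)
      (EuclideanSpace.basisFun (Fin m × Bool) ℝ j) := by
    intro i j
    rw [← vc_inner hu, h1, h1]
  unfold MG
  refine Finset.sum_congr rfl fun σ _ => Finset.sum_congr rfl fun τ _ => ?_
  congr 1
  refine Finset.prod_congr rfl fun b _ => ?_
  simp only [sR, unitT, pull, h1, h2]

/-- `HP` and nonnegativity in dimension six at the shift `t` -/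
def HS (U : V → V → V → V → ℝ) (r : ℕ → ℝ) (t : ℝ) : Prop :=
  HP U r ∧ ∀ u : Fin 3 × Bool → V, Orthonormal ℝ u → 0 ≤ MG (fun _ : Fin 3 => sR t U) u u

theorem pull_HS {I : Type} [Fintype I] {U : V → V → V → V → ℝ} {r : ℕ → ℝ} {t : ℝ}
    (hU : HS U r t) {u : I → V} (hu : Orthonormal ℝ u) : HS (pull U u) r t := by
  refine ⟨pull_HP hU.1 hu, fun w hw => ?_⟩
  have h1 := hU.2 _ (vc_orth hu hw)
  refine h1.trans (le_of_eq ?_)
  unfold MG
  refine Finset.sum_congr rfl fun σ _ => Finset.sum_congr rfl fun τ _ => ?_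
  congr 1
  refine Finset.prod_congr rfl fun b _ => ?_
  simp only [sR, unitT, pull, vc_inner hu]

/-- the cofactor form in dimension `2 (m + 1)` through dimension `2 m` -/
theorem QQ_red (e : OrthonormalBasis (Fin (m + 1) × Bool) ℝ V) {T : V → V → V → V → ℝ}
    (hT : AlgCurv T) {x y : V} (hx : ‖x‖ = 1) (hy : ‖y‖ = 1) (hxy : inner ℝ x y = 0) :
    ∃ u : Fin m × Bool → V, Orthonormal ℝ u ∧ ∀ s, QQ (sR s T) e x y x y =
        4 * MG (fun _ : Fin m => sR s (pull T u)) (EuclideanSpace.basisFun (Fin m × Bool) ℝ)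
        (EuclideanSpace.basisFun (Fin m × Bool) ℝ) := by
  obtain ⟨e', h0, h1⟩ := adapt e hx hy hxy
  have hu : Orthonormal ℝ (tail e') :=
    e'.orthonormal.comp (fun p : Fin m × Bool => ((p.1.succ, p.2) : Fin (m + 1) × Bool)) (by
      rintro ⟨a, b⟩ ⟨c, d⟩ h
      simp only [Prod.mk.injEq, Fin.succ_inj] at h
      exact Prod.ext h.1 h.2)
  refine ⟨tail e', hu, fun s => ?_⟩
  rw [← pull_MG hu, ← QQ_first, h0, h1]
  exact QQ_bas (sR_bi (curv_bi hT) s) e' e x y

/-- the contraction with the unit tensor -/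
theorem MGX_unit {R : V → V → V → V → ℝ} (hR : BiForm R)
    (e : OrthonormalBasis (Fin (m + 1) × Bool) ℝ V) :
    2 * MGX m unitT R e e = ∑ i, ∑ j, QQ R e (e i) (e j) (e i) (e j) := by
  classical
  have h := MGX_contr (R := R) unitT_bi e
  have hQ := QQ_bi hR e
  have h1 : ∀ i j : Fin (m + 1) × Bool, ∑ k, ∑ l, unitT (e i) (e j) (e k) (e l) *
      QQ R e (e i) (e j) (e k) (e l) = 2 * QQ R e (e i) (e j) (e i) (e j) := by
    intro i j
    have h2 : ∀ k l : Fin (m + 1) × Bool, unitT (e i) (e j) (e k) (e l) *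
      QQ R e (e i) (e j) (e k) (e l) =
        (QQ R e (e i) (e j) (e k) (e l) * (if j = l then 1 else 0)) * (if i = k then 1 else 0) -
        (QQ R e (e i) (e j) (e k) (e l) * (if i = l then 1 else 0)) * (if j = k then 1 else 0) := by
      intro k l
      simp only [unitT, OrthonormalBasis.inner_eq_ite]
      ring
    simp only [h2, Finset.sum_sub_distrib, ← Finset.sum_mul, ite_sum]
    rw [bi_anti34 hQ (e i) (e j) (e i) (e j)]
    ring
  simp only [h1, ← Finset.mul_sum] at h
  linarith

theorem MGX_sum {N : ℕ} (A : Fin N → V → V → V → V → ℝ) (R : V → V → V → V → ℝ)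
    (u v : Fin (m + 1) × Bool → V) :
    MGX m (fun x y z w => ∑ k, A k x y z w) R u v = ∑ k, MGX m (A k) R u v := by
  simp only [MGX_apply, Finset.sum_mul, Finset.mul_sum]
  symm
  rw [Finset.sum_comm]
  refine Finset.sum_congr rfl fun σ _ => ?_
  exact Finset.sum_comm

/-- the main inequality of the recursion -/
theorem step_ineq (e : OrthonormalBasis (Fin (m + 1) × Bool) ℝ V) {U : V → V → V → V → ℝ}
    {r : ℕ → ℝ} {s : ℝ} (hU : HP U r)
    (hQ : ∀ x y : V, ‖x‖ = 1 → ‖y‖ = 1 → inner ℝ x y = 0 → 0 ≤ QQ (sR s U) e x y x y) :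
    (s - r (m + 1) / 3) * MGX m unitT (sR s U) e e ≤ MG (fun _ : Fin (m + 1) => sR s U) e e := by
  classical
  have hUb := curv_bi hU.curv
  have hRb := sR_bi hUb s
  have hQb := QQ_bi hRb e
  obtain ⟨N, a, b, T, hT, hU'⟩ := hU
  have hTb := curv_bi hT.curv
  have h0 : MG (fun _ : Fin (m + 1) => sR s U) e e =
      s * MGX m unitT (sR s U) e e + 1 * MGX m U (sR s U) e e := by
    rw [MG_cons, ← MGX_add]
    congr 1
    funext x y z w
    simp only [sR]; ring
  have h01 : MGX m U (sR s U) e e = 1 * MGX m (sbv a b) (sR s U) e e +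
      1 * MGX m T (sR s U) e e := by
    rw [← MGX_add]
    congr 1
    funext x y z w
    rw [hU']; ring
  have h02 : 0 ≤ MGX m (sbv a b) (sR s U) e e := by
    have h03 : sbv a b = fun x y z w => ∑ k, ww (a k) (b k) (a k) (b k) x y z w := rfl
    rw [h03, MGX_sum]
    exact Finset.sum_nonneg fun k _ => bi_sec hQb hQ (a k) (b k)
  have h1 : s * MGX m unitT (sR s U) e e + 1 * MGX m T (sR s U) e e ≤
      MG (fun _ : Fin (m + 1) => sR s U) e e := by
    rw [h0, h01]; linarith
  have h2 := MGX_contr (R := sR s U) hTb e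
  have h3 := MGX_unit hRb e
  have h4 := comp (q := fun i j k l => QQ (sR s U) e (e i) (e j) (e k) (e l))
    (t := fun i j k l => T (e i) (e j) (e k) (e l))
    ⟨fun i j k l => hQb.anti _ _ _ _, fun i j k l => hQb.pair _ _ _ _⟩
    ⟨fun i j k l => hTb.anti _ _ _ _, fun i j k l => hTb.pair _ _ _ _⟩
    (fun i j k l => hT.curv.bianchi _ _ _ _)
    (fun a b => by
      rw [comp_eq hQb]
      exact bi_sec hQb hQ _ _)
    (fun a b => by
      rw [comp_eq hTb]
      exact hT.sec _ _)
    (r := r (m + 1)) (fun k v hv => by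
      have hcard : Fintype.card {i : Fin (m + 1) × Bool // i ≠ k} + 1 = 2 * (m + 1) := by
        rw [Fintype.card_subtype_compl, Fintype.card_prod, Fintype.card_fin, Fintype.card_bool,
          Fintype.card_subtype_eq]
        omega
      have horth : Orthonormal ℝ (fun i : {i : Fin (m + 1) × Bool // i ≠ k} => e i.1) :=
        e.orthonormal.comp _ Subtype.val_injective
      have h5 := hT.ric (m + 1) _ _ hcard horth (fun i => v i.1)
      have hsub : ∀ g : Fin (m + 1) × Bool → ℝ, ∑ i, g i =
          g k + ∑ i : {i : Fin (m + 1) × Bool // i ≠ k}, g i.1 := by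
        intro g
        rw [← Finset.add_sum_erase univ g (Finset.mem_univ k)]
        congr 1
        rw [← Finset.sum_subtype (univ.erase k) (p := fun i => i ≠ k) (by simp) g]
      have hvc : vc (fun i : {i : Fin (m + 1) × Bool // i ≠ k} => e i.1) (fun i => v i.1) =
          vc e v := by
        unfold vc
        rw [← Finset.add_sum_erase univ (fun i => v i • e i) (Finset.mem_univ k), hv, zero_smul,
          zero_add]
        rw [← Finset.sum_subtype (univ.erase k) (p := fun i => i ≠ k) (by simp)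
          (fun i => v i • e i)]
      rw [hvc] at h5
      have h6 : ∀ i, T (e i) (vc e v) (e i) (vc e v) =
          ∑ a, ∑ b, T (e i) (e a) (e i) (e b) * (v a * v b) := by
        intro i
        rw [l2 hTb]
        refine Finset.sum_congr rfl fun a _ => ?_
        rw [l4 hTb, Finset.mul_sum]
        refine Finset.sum_congr rfl fun b _ => ?_
        ring
      have h8 : ∑ a, ∑ b, Rc (fun i j k l => T (e i) (e j) (e k) (e l)) a b * (v a * v b) =
          ∑ i, T (e i) (vc e v) (e i) (vc e v) := by
        simp only [h6, Rc, Finset.sum_mul]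
        have h7 : ∀ a, ∑ b, ∑ i, T (e i) (e a) (e i) (e b) * (v a * v b) =
            ∑ i, ∑ b, T (e i) (e a) (e i) (e b) * (v a * v b) := fun a => Finset.sum_comm
        simp only [h7]
        exact Finset.sum_comm
      rw [h8, ← h6 k, hsub (fun i => T (e i) (vc e v) (e i) (vc e v)),
        hsub (fun i => v i ^ 2), hv]
      refine le_trans (le_of_eq ?_) (h5.trans (le_of_eq ?_))
      · ring
      · ring)
  have h5 : ∑ i, ∑ j, ∑ k, ∑ l, QQ (sR s U) e (e i) (e j) (e k) (e l) *
      T (e i) (e j) (e k) (e l) = 4 * MGX m T (sR s U) e e := by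
    rw [← h2]
    refine Finset.sum_congr rfl fun i _ => Finset.sum_congr rfl fun j _ =>
      Finset.sum_congr rfl fun k _ => Finset.sum_congr rfl fun l _ => ?_
    ring
  rw [h5, ← h3] at h4
  refine le_trans ?_ h1
  linarith

end red

end Pool.Agent.H349.RP
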