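import Pool.Agent.H349.RP.E

/-!
# The induction over the dimension
-/

set_option autoImplicit false

namespace Pool.Agent.H349.RP

open Finset Module Pool.Agent.W666.GB Pool.Agent.W669.HD

/-- the value for constant curvature one -/
noncomputable def cM (m : ℕ) : ℝ := 2 ^ m * (2 * m).factorial

theorem cM_pos (m : ℕ) : 0 < cM m := by unfold cM; positivity

theorem cM_succ (m : ℕ) : cM (m + 1) = 2 * (2 * m + 2) * (2 * m + 1) * cM m := by
  unfold cM
  have h : 2 * (m + 1) = (2 * m + 1) + 1 := by ring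
  rw [h, Nat.factorial_succ, Nat.factorial_succ, pow_succ]
  push_cast
  ring

/-- a class of tensors which is closed under restriction and contained in `HP` -/
structure Her (r : ℕ → ℝ) (H : ∀ (V : Type) [NormedAddCommGroup V] [InnerProductSpace ℝ V],
    (V → V → V → V → ℝ) → Prop) : Prop where
  hp : ∀ (V : Type) [NormedAddCommGroup V] [InnerProductSpace ℝ V] (U : V → V → V → V → ℝ),
    H V U → HP U r
  res : ∀ (V : Type) [NormedAddCommGroup V] [InnerProductSpace ℝ V] (U : V → V → V → V → ℝ)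
    (I : Type) [Fintype I] (u : I → V), H V U → Orthonormal ℝ u →
      H (EuclideanSpace ℝ I) (pull U u)

/-- the inductive claim -/
def Claim (H : ∀ (V : Type) [NormedAddCommGroup V] [InnerProductSpace ℝ V],
    (V → V → V → V → ℝ) → Prop) (S : ℕ → ℝ) (m : ℕ) : Prop :=
  ∀ (V : Type) [NormedAddCommGroup V] [InnerProductSpace ℝ V]
  (e : OrthonormalBasis (Fin m × Bool) ℝ V) (T : V → V → V → V → ℝ), H V T →
  (∀ s, S m ≤ s → cM m * (s - S m) ^ m ≤ MG (fun _ : Fin m => sR s T) e e) ∧
  MonotoneOn (fun s => MG (fun _ : Fin m => sR s T) e e) (Set.Ici (S m))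

theorem mono_of_deriv {f f' : ℝ → ℝ} {a : ℝ} (hf : ∀ s, HasDerivAt f (f' s) s)
    (h : ∀ s, a ≤ s → 0 ≤ f' s) : MonotoneOn f (Set.Ici a) := by
  refine monotoneOn_of_deriv_nonneg (convex_Ici a) ?_ ?_ ?_
  · exact fun s _ => (hf s).continuousAt.continuousWithinAt
  · exact fun s _ => (hf s).differentiableAt.differentiableWithinAt
  · intro s hs
    rw [interior_Ici] at hs
    rw [(hf s).deriv]
    exact h s (le_of_lt hs)

section step

variable {V : Type} [NormedAddCommGroup V] [InnerProductSpace ℝ V] {m : ℕ} {r : ℕ → ℝ}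
  {H : ∀ (V : Type) [NormedAddCommGroup V] [InnerProductSpace ℝ V],
    (V → V → V → V → ℝ) → Prop} {S : ℕ → ℝ}

/-- consequences of the claim for the cofactor form -/
theorem cof_bounds (hH : Her r H) (h : Claim H S m) (e : OrthonormalBasis (Fin (m + 1) × Bool) ℝ V)
    {T : V → V → V → V → ℝ} (hT : H V T) {x y : V} (hx : ‖x‖ = 1)
    (hy : ‖y‖ = 1) (hxy : inner ℝ x y = 0) :
    (∀ s, S m ≤ s → 4 * (cM m * (s - S m) ^ m) ≤ QQ (sR s T) e x y x y) ∧
    MonotoneOn (fun s => QQ (sR s T) e x y x y) (Set.Ici (S m)) := by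
  obtain ⟨u, hu, hs⟩ := QQ_red e (hH.hp V T hT).curv hx hy hxy
  obtain ⟨h1, h2⟩ := h _ (EuclideanSpace.basisFun (Fin m × Bool) ℝ) (pull T u)
    (hH.res V T _ u hT hu)
  constructor
  · intro s hs'
    rw [hs]
    have := h1 s hs'
    linarith
  · intro s hs' t ht hst
    simp only [hs]
    have := h2 hs' ht hst
    simp only at this
    linarith

/-- the derivative: lower bound and monotonicity -/
theorem der_bounds (hH : Her r H) (h : Claim H S m) (e : OrthonormalBasis (Fin (m + 1) × Bool) ℝ V)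
    {T : V → V → V → V → ℝ} (hT : H V T) :
    (∀ s, S m ≤ s → cM (m + 1) * (s - S m) ^ m ≤ MGX m unitT (sR s T) e e) ∧
    MonotoneOn (fun s => MGX m unitT (sR s T) e e) (Set.Ici (S m)) := by
  classical
  have hTb := curv_bi (hH.hp V T hT).curv
  have hU : ∀ s, 2 * MGX m unitT (sR s T) e e = ∑ i, ∑ j, QQ (sR s T) e (e i) (e j) (e i) (e j) :=
    fun s => MGX_unit (sR_bi hTb s) e
  have hself : ∀ s i, QQ (sR s T) e (e i) (e i) (e i) (e i) = 0 := by
    intro s i
    have := (QQ_bi (sR_bi hTb s) e).anti (e i) (e i) (e i) (e i)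
    linarith
  have hort : ∀ i j, i ≠ j → inner ℝ (e i) (e j) = 0 := fun i j hij => e.orthonormal.2 hij
  have hcb : ∀ i j, i ≠ j → _ := fun i j hij =>
    cof_bounds hH h e hT (e.orthonormal.1 i) (e.orthonormal.1 j) (hort i j hij)
  constructor
  · intro s hs
    have h1 : ∀ i j : Fin (m + 1) × Bool, (4 * (cM m * (s - S m) ^ m)) *
        (1 - (if i = j then 1 else 0)) ≤ QQ (sR s T) e (e i) (e j) (e i) (e j) := by
      intro i j
      by_cases hij : i = j
      · subst hij
        rw [if_pos rfl, hself]; simp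
      · rw [if_neg hij, sub_zero, mul_one]
        exact (hcb i j hij).1 s hs
    have h2 : ∑ i : Fin (m + 1) × Bool, ∑ j : Fin (m + 1) × Bool,
        (4 * (cM m * (s - S m) ^ m)) * (1 - (if i = j then (1 : ℝ) else 0)) =
        (2 * m + 2) * (2 * m + 1) * (4 * (cM m * (s - S m) ^ m)) := by
      simp only [← Finset.mul_sum, Finset.sum_sub_distrib, Finset.sum_const, Finset.card_univ,
        Fintype.card_prod, Fintype.card_fin, Fintype.card_bool, nsmul_eq_mul,
        Finset.sum_ite_eq, Finset.mem_univ, if_true]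
      push_cast
      ring
    have h3 := Finset.sum_le_sum (s := (univ : Finset (Fin (m + 1) × Bool))) fun i _ =>
      Finset.sum_le_sum (s := (univ : Finset (Fin (m + 1) × Bool))) fun j _ => h1 i j
    rw [h2, ← hU] at h3
    rw [cM_succ]
    linarith
  · intro s hs t ht hst
    have h1 : ∀ i j : Fin (m + 1) × Bool, QQ (sR s T) e (e i) (e j) (e i) (e j) ≤
        QQ (sR t T) e (e i) (e j) (e i) (e j) := by
      intro i j
      by_cases hij : i = j
      · subst hij
        rw [hself, hself]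
      · exact (hcb i j hij).2 hs ht hst
    have h3 := Finset.sum_le_sum (s := (univ : Finset (Fin (m + 1) × Bool))) fun i _ =>
      Finset.sum_le_sum (s := (univ : Finset (Fin (m + 1) × Bool))) fun j _ => h1 i j
    rw [← hU, ← hU] at h3
    show MGX m unitT (sR s T) e e ≤ MGX m unitT (sR t T) e e
    linarith

theorem deriv_MG (T : V → V → V → V → ℝ) (u : Fin (m + 1) × Bool → V) (s : ℝ) :
    HasDerivAt (fun s : ℝ => MG (fun _ : Fin (m + 1) => sR s T) u u)
      ((m + 1) * MGX m unitT (sR s T) u u) s := MG_deriv unitT T u u s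

/-- the step, given the nonnegativity at the threshold -/
theorem step (hH : Her r H) (h : Claim H S m) (hS : S m ≤ S (m + 1))
    (e : OrthonormalBasis (Fin (m + 1) × Bool) ℝ V)
    {T : V → V → V → V → ℝ} (hT : H V T)
    (h0 : 0 ≤ MG (fun _ : Fin (m + 1) => sR (S (m + 1)) T) e e) :
    (∀ s, S (m + 1) ≤ s → cM (m + 1) * (s - S (m + 1)) ^ (m + 1) ≤
      MG (fun _ : Fin (m + 1) => sR s T) e e) ∧
    MonotoneOn (fun s => MG (fun _ : Fin (m + 1) => sR s T) e e) (Set.Ici (S (m + 1))) := by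
  obtain ⟨hd, -⟩ := der_bounds hH h e hT
  have hc := cM_pos (m + 1)
  constructor
  · intro s hs
    have h1 : ∀ s : ℝ, HasDerivAt (fun s : ℝ => MG (fun _ : Fin (m + 1) => sR s T) e e -
        cM (m + 1) * (s - S (m + 1)) ^ (m + 1))
        ((m + 1) * MGX m unitT (sR s T) e e -
          cM (m + 1) * ((m + 1) * (s - S (m + 1)) ^ m)) s := by
      intro s
      refine (deriv_MG T e s).sub ?_
      refine HasDerivAt.const_mul _ ?_
      have h2 := ((hasDerivAt_id s).sub_const (S (m + 1))).fun_pow (m + 1)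
      simpa using h2
    have h2 := mono_of_deriv h1 (a := S (m + 1)) (fun t ht => by
      have h3 := hd t (hS.trans ht)
      have h4 : (t - S (m + 1)) ^ m ≤ (t - S m) ^ m :=
        pow_le_pow_left₀ (by linarith) (by linarith) m
      have h5 : cM (m + 1) * (t - S (m + 1)) ^ m ≤ MGX m unitT (sR t T) e e :=
        (mul_le_mul_of_nonneg_left h4 hc.le).trans h3
      have h6 : (0 : ℝ) < m + 1 := by positivity
      nlinarith)
    have h3 := h2 (Set.mem_Ici.2 le_rfl) (Set.mem_Ici.2 hs) hs
    simp only [sub_self, ne_eq, Nat.add_eq_zero_iff, one_ne_zero, and_false, not_false_eq_true,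
      zero_pow, mul_zero, sub_zero] at h3
    linarith
  · refine mono_of_deriv (deriv_MG T e) fun t ht => ?_
    have h3 := hd t (hS.trans ht)
    have h4 : 0 ≤ cM (m + 1) * (t - S m) ^ m :=
      mul_nonneg hc.le (pow_nonneg (by linarith) _)
    exact mul_nonneg (by positivity) (h4.trans h3)

/-- nonnegativity at the threshold, `m + 1 ≥ 3` -/
theorem thr (hH : Her r H) (h : Claim H S m) (hS : S m ≤ S (m + 1))
    (hrec : (m + 1) * S (m + 1) = m * S m + r (m + 1) / 3)
    (e : OrthonormalBasis (Fin (m + 1) × Bool) ℝ V)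
    {T : V → V → V → V → ℝ} (hT : H V T) :
    0 ≤ MG (fun _ : Fin (m + 1) => sR (S (m + 1)) T) e e := by
  obtain ⟨hd, hmono⟩ := der_bounds hH h e hT
  have h1 : ∀ s : ℝ, HasDerivAt (fun s : ℝ => MG (fun _ : Fin (m + 1) => sR s T) e e -
        ((m + 1) * MGX m unitT (sR (S m) T) e e) * s)
        ((m + 1) * MGX m unitT (sR s T) e e - (m + 1) * MGX m unitT (sR (S m) T) e e) s := by
    intro s
    refine (deriv_MG T e s).sub ?_
    have h2 := (hasDerivAt_id s).const_mul ((m + 1) * MGX m unitT (sR (S m) T) e e)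
    simpa using h2
  have h2 := mono_of_deriv h1 (a := S m) (fun t ht => by
    have h3 := hmono (Set.mem_Ici.2 le_rfl) (Set.mem_Ici.2 ht) ht
    simp only at h3
    have h6 : (0 : ℝ) < m + 1 := by positivity
    nlinarith)
  have h3 := h2 (Set.mem_Ici.2 le_rfl) (Set.mem_Ici.2 hS) hS
  simp only at h3
  have h4 := step_ineq e (s := S m) (hH.hp V T hT) (fun x y hx hy hxy => by
    have h5 := (cof_bounds hH h e hT hx hy hxy).1 (S m) le_rfl
    have h6 : 0 ≤ 4 * (cM m * (S m - S m) ^ m) := by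
      have := cM_pos m
      rw [sub_self]
      positivity
    exact h6.trans h5)
  have h8 : (S m - r (m + 1) / 3) * MGX m unitT (sR (S m) T) e e +
      ((m + 1) * MGX m unitT (sR (S m) T) e e) * (S (m + 1) - S m) = 0 := by
    have : (S m - r (m + 1) / 3) + (m + 1) * (S (m + 1) - S m) = 0 := by linarith
    linear_combination (MGX m unitT (sR (S m) T) e e) * this
  linarith

end step

section base

variable {r : ℕ → ℝ} {H : ∀ (V : Type) [NormedAddCommGroup V] [InnerProductSpace ℝ V],
    (V → V → V → V → ℝ) → Prop} {S : ℕ → ℝ}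

theorem claim0 (hS : S 0 = 0) : Claim H S 0 := by
  intro V _ _ e T _
  have h : ∀ s, MG (fun _ : Fin 0 => sR s T) e e = 1 := by
    intro s
    unfold MG
    have hu : (Finset.univ : Finset (Equiv.Perm (Fin 0 × Bool))) = {1} := by
      ext σ
      simp only [Finset.mem_univ, Finset.mem_singleton, true_iff]
      exact Equiv.ext fun x => x.1.elim0
    rw [hu, Finset.sum_singleton, Finset.sum_singleton, sn_one]
    simp
  constructor
  · intro s _
    rw [h]; simp [cM]
  · intro s _ t _ _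
    simp only [h]; exact le_rfl

theorem claim1 (hH : Her r H) (hS0 : S 0 = 0) (hS1 : S 1 = 0) : Claim H S 1 := by
  intro V _ _ e T hT'
  refine step hH (claim0 hS0) (by rw [hS0, zero_add, hS1]) e hT' ?_
  have hT := hH.hp V T hT'
  have hS : S (0 + 1) = 0 := by rw [zero_add]; exact hS1
  rw [hS]
  have hR : sR 0 T = T := by
    funext x y z w; simp [sR]
  rw [hR]
  have hb := curv_bi hT.curv
  have hu : (Finset.univ : Finset (Equiv.Perm (Fin (0 + 1) × Bool))) =
      {1, Equiv.swap (0, false) (0, true)} := by decide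
  have h3 : sn (Equiv.swap ((0, false) : Fin (0 + 1) × Bool) (0, true)) = -1 := by
    simp [sn, Equiv.Perm.sign_swap]
  unfold MG
  rw [hu, Finset.sum_pair (by decide), Finset.sum_pair (by decide), Finset.sum_pair (by decide),
    sn_one, h3]
  simp only [Fin.prod_univ_succ, Fin.prod_univ_zero, mul_one, Equiv.Perm.one_apply,
    Equiv.swap_apply_left, Equiv.swap_apply_right]
  have h4 := hT.sec (e (0, false)) (e (0, true))
  have h5 := hb.anti (e (0, false)) (e (0, true)) (e (0, false)) (e (0, true))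
  have h6 := bi_anti34 hb (e (0, false)) (e (0, true)) (e (0, false)) (e (0, true))
  have h7 := bi_anti34 hb (e (0, true)) (e (0, false)) (e (0, false)) (e (0, true))
  rw [h7, h5, h6]
  linarith

theorem claim2 (hH : Her r H) (hS0 : S 0 = 0) (hS1 : S 1 = 0) (hS2 : S 2 = 0) : Claim H S 2 := by
  intro V _ _ e T hT'
  refine step hH (claim1 hH hS0 hS1) (by rw [hS1]; exact hS2.ge) e hT' ?_
  have hT := hH.hp V T hT'
  have hS : S (1 + 1) = 0 := hS2
  rw [hS]
  have hR : sR 0 T = T := by
    funext x y z w; simp [sR]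
  rw [hR]
  have : FiniteDimensional ℝ V := Module.Finite.of_basis e.toBasis
  have hf : finrank ℝ (⊤ : Submodule ℝ V) ≤ 4 := by
    rw [finrank_top, finrank_eq_card_basis e.toBasis]
    simp
  have h0 : AlgCurv (fun _ _ _ _ : V => (0 : ℝ)) :=
    ⟨fun _ _ _ _ _ => by simp, fun _ _ _ _ _ => by simp, fun _ _ _ _ => by simp,
      fun _ _ _ _ => by simp, fun _ _ _ _ => by simp⟩
  have hn : AlgCurv (negT T) := by
    have hc := hT.curv
    refine ⟨fun x x' y z w => ?_, fun t x y z w => ?_, fun x y z w => ?_, fun x y z w => ?_,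
      fun x y z w => ?_⟩
    · simp only [negT, hc.add]; ring
    · simp only [negT, hc.smul]; ring
    · simp only [negT]; rw [hc.anti]
    · simp only [negT]; rw [hc.pair]
    · simp only [negT]; have := hc.bianchi x y z w; linarith
  have h1 := sum_bound e (R₁ := negT T) (R₂ := fun _ _ _ _ => 0) ⊤ hn h0 hf
    (by
      intro x hx y z w
      have hx0 : x = 0 := by simpa using hx
      rw [hx0]
      exact bi_zero1 (curv_bi hn) y z w)
    (fun x y => by
      have := hT.sec x y
      simp only [negT]; linarith)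
    (δ := 0) le_rfl
    (by
      intro n x y
      refine Finset.sum_nonneg fun a _ => Finset.sum_nonneg fun b _ => ?_
      simp [negT, addT])
  have h2 : roundGB 2 0 = 0 := by simp [roundGB]
  rw [h2] at h1
  have hπ := Real.pi_pos
  have h3 : (-1 : ℝ) ^ 2 * gbc e (addT (negT T) fun _ _ _ _ => 0) =
      1 / ((8 * Real.pi) ^ 2 * (2 : ℕ).factorial) * MG (fun _ : Fin (1 + 1) => T) e e := by
    unfold gbc MG
    rw [neg_one_sq, one_mul]
    congr 1
    refine Finset.sum_congr rfl fun σ _ => Finset.sum_congr rfl fun τ _ => ?_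
    simp only [sn, Fin.prod_univ_succ, Fin.prod_univ_zero, addT, negT]
    ring
  rw [h3] at h1
  have h4 : 0 < 1 / ((8 * Real.pi) ^ 2 * ((2 : ℕ).factorial : ℝ)) := by positivity
  exact nonneg_of_mul_nonneg_right h1 h4

end base

/-- `HP` is closed under restriction -/
theorem her_HP (r : ℕ → ℝ) : Her r (fun _ _ _ U => HP U r) where
  hp _ _ _ _ h := h
  res _ _ _ _ _ _ _ h hu := pull_HP h hu

theorem her_HS (r : ℕ → ℝ) (t : ℝ) : Her r (fun _ _ _ U => HS U r t) where
  hp _ _ _ _ h := h.1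
  res _ _ _ _ _ _ _ h hu := pull_HS h hu

/-- dimension six -/
theorem six {r : ℕ → ℝ} (hr : 0 ≤ r 3) {V : Type} [NormedAddCommGroup V] [InnerProductSpace ℝ V]
    {U : V → V → V → V → ℝ} (hU : HP U r) : HS U r (r 3 / 9) := by
  refine ⟨hU, fun u hu => ?_⟩
  let S : ℕ → ℝ := fun m => if m ≤ 2 then 0 else r 3 / 9
  have h2 : Claim (fun _ _ _ U => HP U r) S 2 := claim2 (her_HP r) rfl rfl rfl
  have h3 := thr (her_HP r) h2 (by
      have e1 : S 2 = 0 := rfl
      have e2 : S (2 + 1) = r 3 / 9 := rfl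
      rw [e1, e2]; linarith) (by
      have e1 : S 2 = 0 := rfl
      have e2 : S (2 + 1) = r 3 / 9 := rfl
      rw [e1, e2]; push_cast; norm_num; ring)
    (EuclideanSpace.basisFun (Fin (2 + 1) × Bool) ℝ) (T := pull U u) (pull_HP hU hu)
  rw [pull_MG hu]
  exact h3

/-- the thresholds -/
noncomputable def Sm (r : ℕ → ℝ) (t : ℝ) (m : ℕ) : ℝ :=
  if m ≤ 2 then 0 else (3 * t + (∑ j ∈ Finset.Icc 4 m, r j) / 3) / m

theorem Sm_three (r : ℕ → ℝ) (t : ℝ) : Sm r t 3 = t := by
  unfold Sm
  rw [if_neg (by norm_num)]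
  have : Finset.Icc 4 3 = (∅ : Finset ℕ) := rfl
  rw [this, Finset.sum_empty]
  push_cast
  ring

theorem Sm_rec {m : ℕ} (hm : 3 ≤ m) (r : ℕ → ℝ) (t : ℝ) :
    (m + 1) * Sm r t (m + 1) = m * Sm r t m + r (m + 1) / 3 := by
  unfold Sm
  rw [if_neg (by omega), if_neg (by omega), Finset.sum_Icc_succ_top (by omega)]
  have h1 : (m : ℝ) ≠ 0 := by
    have : 0 < m := by omega
    positivity
  have h2 : ((m : ℝ) + 1) ≠ 0 := by positivity
  push_cast
  field_simp
  ring

/-- the condition on the bounds -/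
structure Adm (r : ℕ → ℝ) (t : ℝ) : Prop where
  t0 : 0 ≤ t
  mono : Monotone r
  t4 : 3 * t ≤ r 4

theorem Sm_le {r : ℕ → ℝ} {t : ℝ} (h : Adm r t) : ∀ m, 3 ≤ m → Sm r t m ≤ r (m + 1) / 3 := by
  intro m hm
  induction m, hm using Nat.le_induction with
  | base =>
    rw [Sm_three]
    have := h.t4
    show t ≤ r 4 / 3
    linarith
  | succ m hm ih =>
    have h1 := Sm_rec hm r t
    have h2 : (0 : ℝ) < m + 1 := by positivity
    have h3 : r (m + 1) ≤ r (m + 1 + 1) := h.mono (by omega)
    have h4 : ((m : ℝ) + 1) * Sm r t (m + 1) ≤ (m + 1) * (r (m + 1 + 1) / 3) := by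
      rw [h1]
      have h5 : (m : ℝ) * Sm r t m ≤ m * (r (m + 1) / 3) :=
        mul_le_mul_of_nonneg_left ih (by positivity)
      nlinarith
    exact le_of_mul_le_mul_left h4 h2

theorem Sm_mono {r : ℕ → ℝ} {t : ℝ} (h : Adm r t) (m : ℕ) : Sm r t m ≤ Sm r t (m + 1) := by
  by_cases hm : m ≤ 1
  · unfold Sm
    rw [if_pos (by omega), if_pos (by omega)]
  by_cases hm2 : m = 2
  · subst hm2
    rw [show 2 + 1 = 3 from rfl, Sm_three]
    have : Sm r t 2 = 0 := by unfold Sm; rw [if_pos le_rfl]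
    rw [this]; exact h.t0
  · have hm3 : 3 ≤ m := by omega
    have h1 := Sm_rec hm3 r t
    have h2 := Sm_le h m hm3
    have h3 : (0 : ℝ) < m + 1 := by positivity
    have h4 : ((m : ℝ) + 1) * Sm r t m ≤ (m + 1) * Sm r t (m + 1) := by
      rw [h1]; linarith
    exact le_of_mul_le_mul_left h4 h3

/-- the claim in all dimensions -/
theorem claim {r : ℕ → ℝ} {t : ℝ} (h : Adm r t) :
    ∀ m, Claim (fun _ _ _ U => HS U r t) (Sm r t) m
  | 0 => claim0 (by unfold Sm; simp)
  | 1 => claim1 (her_HS r t) (by unfold Sm; simp) (by unfold Sm; simp)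
  | 2 => claim2 (her_HS r t) (by unfold Sm; simp) (by unfold Sm; simp) (by unfold Sm; simp)
  | 3 => by
    have h2 := claim h 2
    intro V _ _ e T hT
    refine step (her_HS r t) h2 (Sm_mono h 2) e hT ?_
    have : Sm r t (2 + 1) = t := Sm_three r t
    rw [this]
    exact hT.2 e e.orthonormal
  | m + 4 => by
    have h2 := claim h (m + 3)
    intro V _ _ e T hT
    refine step (her_HS r t) h2 (Sm_mono h _) e hT
      (thr (her_HS r t) h2 (Sm_mono h _) ?_ e hT)
    have := Sm_rec (show 3 ≤ m + 3 by omega) r t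
    exact_mod_cast this

end Pool.Agent.H349.RP
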