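import Pool.Agent.H349.RP.F

/-!
# The Gauss–Bonnet–Chern integrand under an upper sectional and a lower Ricci curvature bound
-/

set_option autoImplicit false

namespace Pool.Agent.H349.RP

open Finset Module MeasureTheory Pool.Agent.W666.GB Pool.Agent.W669.HD

section point

variable {V : Type} [NormedAddCommGroup V] [InnerProductSpace ℝ V] {m : ℕ}

/-- all sectional curvatures of `R` are at most `-c` -/
def SecLe (R : V → V → V → V → ℝ) (c : ℝ) : Prop :=
  ∀ x y : V, ‖x‖ = 1 → ‖y‖ = 1 → inner ℝ x y = 0 → R x y x y ≤ -c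

/-- all Ricci curvatures of `R` are at least `-ρ` -/
def RicGe (e : OrthonormalBasis (Fin m × Bool) ℝ V) (R : V → V → V → V → ℝ) (ρ : ℝ) : Prop :=
  ∀ x : V, ‖x‖ = 1 → -ρ ≤ ∑ i, R (e i) x (e i) x

/-- The Ricci curvatures of the restrictions of `R` to all subspaces of dimension `2 j - 1` (with
orthonormal bases `u`) are at least `-((2 j - 2) c + r j)`, for all `j`. -/
def PRicGe (R : V → V → V → V → ℝ) (c : ℝ) (r : ℕ → ℝ) : Prop :=
  ∀ (j : ℕ) (ι : Type) [Fintype ι] (u : ι → V), Fintype.card ι + 1 = 2 * j → Orthonormal ℝ u →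
    ∀ x ∈ Submodule.span ℝ (Set.range u), ‖x‖ = 1 →
      -((2 * j - 2) * c + r j) ≤ ∑ i, R (u i) x (u i) x

/-- `c - (r 3 + r 4 + ⋯ + r m) / (3 m)` -/
noncomputable def dr (m : ℕ) (c : ℝ) (r : ℕ → ℝ) : ℝ :=
  c - (∑ j ∈ Finset.Icc 3 m, r j) / (3 * m)

/-- the negative of `R`, shifted -/
noncomputable def sT (R : V → V → V → V → ℝ) (c : ℝ) : V → V → V → V → ℝ :=
  fun x y z w => -R x y z w - c * unitT x y z w

theorem sT_curv {R : V → V → V → V → ℝ} (hR : AlgCurv R) (c : ℝ) : AlgCurv (sT R c) := by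
  have hu := unit_curv (V := V) (-c)
  have hn : AlgCurv (negT R) :=
    ⟨fun x x' y z w => by simp only [negT, hR.add]; ring,
      fun t x y z w => by simp only [negT, hR.smul]; ring,
      fun x y z w => by simp only [negT]; rw [hR.anti],
      fun x y z w => by simp only [negT]; rw [hR.pair],
      fun x y z w => by simp only [negT]; have := hR.bianchi x y z w; linarith⟩
  have h := add_curv hn hu
  have : sT R c = addT (negT R) fun x y z w => -c * unitT x y z w := by
    funext x y z w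
    simp only [sT, addT, negT]; ring
  rw [this]
  exact h

theorem sT_sec {R : V → V → V → V → ℝ} (hR : AlgCurv R) {c : ℝ} (h : SecLe R c) (x y : V) :
    0 ≤ sT R c x y x y := by
  refine bi_sec (curv_bi (sT_curv hR c)) (fun x y hx hy hxy => ?_) x y
  have h1 := h x y hx hy hxy
  simp only [sT, unitT]
  rw [real_inner_self_eq_norm_sq, real_inner_self_eq_norm_sq, hx, hy, hxy]
  nlinarith

/-- partial traces of a nonnegative form are at most the trace -/
theorem partial_trace {J : Type} [Fintype J] [DecidableEq J] (e : OrthonormalBasis J ℝ V)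
    {B : V → V → ℝ} (hadd : ∀ x x' y, B (x + x') y = B x y + B x' y)
    (hsmul : ∀ (t : ℝ) (x y : V), B (t • x) y = t * B x y) (hsymm : ∀ x y, B y x = B x y)
    (hB : ∀ x, 0 ≤ B x x) {ι : Type} [Fintype ι] {u : ι → V} (hu : Orthonormal ℝ u) :
    ∑ i, B (u i) (u i) ≤ ∑ j, B (e j) (e j) := by
  classical
  have hlin : ∀ (f : J → ℝ) (y : V), B (∑ j, f j • e j) y = ∑ j, f j * B (e j) y := by
    intro f y
    let L : V →ₗ[ℝ] ℝ :=
      { toFun := fun u => B u y
        map_add' := fun u v => hadd u v y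
        map_smul' := fun t u => hsmul t u y }
    have h1 : L (∑ j, f j • e j) = ∑ j, f j * L (e j) := by
      rw [map_sum]
      exact Finset.sum_congr rfl fun a _ => by rw [map_smul, smul_eq_mul]
    exact h1
  have hexp : ∀ x, B x x = ∑ j, ∑ k, B (e j) (e k) * (inner ℝ (e j) x * inner ℝ (e k) x) := by
    intro x
    have h1 : x = ∑ j, inner ℝ (e j) x • e j := (e.sum_repr' x).symm
    have h2 : ∀ y, B x y = ∑ j, inner ℝ (e j) x * B (e j) y := by
      intro y
      have h3 := hlin (fun j => inner ℝ (e j) x) y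
      rw [← h1] at h3
      exact h3
    rw [h2]
    refine Finset.sum_congr rfl fun j _ => ?_
    rw [hsymm x (e j), h2, Finset.mul_sum]
    refine Finset.sum_congr rfl fun k _ => ?_
    rw [hsymm (e j) (e k)]; ring
  have hps : ∀ v : J → ℝ, 0 ≤ ∑ j, ∑ k, B (e j) (e k) * (v j * v k) := by
    intro v
    have h1 := hB (∑ j, v j • e j)
    rw [hexp] at h1
    refine h1.trans (le_of_eq ?_)
    have h2 : ∀ j, inner ℝ (e j) (∑ k, v k • e k) = v j := fun j => by
      rw [e.orthonormal.inner_right_sum _ (Finset.mem_univ j)]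
    simp only [h2]
  have hM : 0 ≤ ∑ j, ∑ k, B (e j) (e k) *
      ((if j = k then 1 else 0) - ∑ i, inner ℝ (e j) (u i) * inner ℝ (e k) (u i)) := by
    refine tr_psd hps ?_ ?_
    · intro a b
      simp only [eq_comm (a := b) (b := a)]
      congr 1
      exact Finset.sum_congr rfl fun i _ => by ring
    · intro v
      have h1 := hu.sum_inner_products_le (∑ j, v j • e j) (s := Finset.univ)
      have h2 : ‖∑ j, v j • e j‖ ^ 2 = ∑ j, v j ^ 2 := by
        rw [← real_inner_self_eq_norm_sq, e.orthonormal.inner_sum]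
        refine Finset.sum_congr rfl fun j _ => ?_
        simp [sq]
      rw [h2] at h1
      have h3 : ∀ i, inner ℝ (u i) (∑ j, v j • e j) = ∑ j, v j * inner ℝ (e j) (u i) := by
        intro i
        rw [inner_sum]
        refine Finset.sum_congr rfl fun j _ => ?_
        rw [inner_smul_right, real_inner_comm]
      have h4 : ∑ j, ∑ k, ((if j = k then 1 else 0) - ∑ i, inner ℝ (e j) (u i) *
          inner ℝ (e k) (u i)) * (v j * v k) =
          ∑ j, v j ^ 2 - ∑ i, (∑ j, v j * inner ℝ (e j) (u i)) ^ 2 := by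
        simp only [sub_mul, Finset.sum_sub_distrib]
        congr 1
        · refine Finset.sum_congr rfl fun j _ => ?_
          rw [Finset.sum_eq_single j]
          · rw [if_pos rfl]; ring
          · intro k _ hk; rw [if_neg (Ne.symm hk), zero_mul]
          · intro h; exact absurd (Finset.mem_univ _) h
        · have g0 : ∀ i, (∑ j, v j * inner ℝ (e j) (u i)) ^ 2 =
              ∑ j, ∑ k, (v j * inner ℝ (e j) (u i)) * (v k * inner ℝ (e k) (u i)) := fun i => by
            rw [sq, Finset.sum_mul_sum]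
          simp only [g0, Finset.sum_mul]
          have g1 : ∀ j, ∑ k, ∑ i, inner ℝ (e j) (u i) * inner ℝ (e k) (u i) * (v j * v k) =
              ∑ i, ∑ k, inner ℝ (e j) (u i) * inner ℝ (e k) (u i) * (v j * v k) :=
            fun j => Finset.sum_comm
          simp only [g1]
          rw [Finset.sum_comm]
          refine Finset.sum_congr rfl fun i _ => Finset.sum_congr rfl fun j _ =>
            Finset.sum_congr rfl fun k _ => ?_
          ring
      rw [h4]
      have h5 : ∑ i, ‖inner ℝ (u i) (∑ j, v j • e j)‖ ^ 2 =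
          ∑ i, (∑ j, v j * inner ℝ (e j) (u i)) ^ 2 := by
        refine Finset.sum_congr rfl fun i _ => ?_
        rw [h3, Real.norm_eq_abs, sq_abs]
      rw [h5] at h1
      linarith
  have h6 : ∑ j, ∑ k, B (e j) (e k) *
      ((if j = k then 1 else 0) - ∑ i, inner ℝ (e j) (u i) * inner ℝ (e k) (u i)) =
      ∑ j, B (e j) (e j) - ∑ i, B (u i) (u i) := by
    simp only [mul_sub, Finset.sum_sub_distrib, ite_sum]
    congr 1
    simp only [hexp (u _), Finset.mul_sum]
    have g1 : ∀ j, ∑ k, ∑ i, B (e j) (e k) * (inner ℝ (e j) (u i) * inner ℝ (e k) (u i)) =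
        ∑ i, ∑ k, B (e j) (e k) * (inner ℝ (e j) (u i) * inner ℝ (e k) (u i)) :=
      fun j => Finset.sum_comm
    simp only [g1]
    exact Finset.sum_comm
  rw [h6] at hM
  linarith

theorem unit_trace (e : OrthonormalBasis (Fin m × Bool) ℝ V) (x : V) :
    ∑ i, unitT (e i) x (e i) x = (2 * m - 1) * ‖x‖ ^ 2 := by
  have h1 : ∑ i, inner ℝ (e i) x * inner ℝ x (e i) = ‖x‖ ^ 2 := by
    have h2 := e.sum_inner_mul_inner x x
    rw [real_inner_self_eq_norm_sq] at h2
    rw [← h2]
    exact Finset.sum_congr rfl fun i _ => by ring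
  simp only [unitT, OrthonormalBasis.inner_eq_one, one_mul, Finset.sum_sub_distrib, h1,
    real_inner_self_eq_norm_sq, Finset.sum_const, Finset.card_univ, Fintype.card_prod,
    Fintype.card_fin, Fintype.card_bool, nsmul_eq_mul]
  push_cast
  ring

theorem vc_norm_sq {J : Type} [Fintype J] {u : J → V} (hu : Orthonormal ℝ u) (f : J → ℝ) :
    ‖vc u f‖ ^ 2 = ∑ i, f i ^ 2 := by
  unfold vc
  rw [← real_inner_self_eq_norm_sq, hu.inner_sum]
  refine Finset.sum_congr rfl fun j _ => ?_
  simp [pow_two]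

theorem unit_trace_fam {ι : Type} [Fintype ι] {u : ι → V} (hu : Orthonormal ℝ u)
    (f : ι → ℝ) :
    ∑ i, unitT (u i) (vc u f) (u i) (vc u f) = ((Fintype.card ι : ℝ) - 1) * ∑ i, f i ^ 2 := by
  classical
  have h0 : ∀ i, inner ℝ (u i) (vc u f) = f i := fun i => by
    unfold vc
    rw [hu.inner_right_sum _ (Finset.mem_univ i)]
  have h1 : ∀ i, unitT (u i) (vc u f) (u i) (vc u f) = ∑ k, f k ^ 2 - f i ^ 2 := by
    intro i
    simp only [unitT]
    rw [real_inner_self_eq_norm_sq, real_inner_self_eq_norm_sq, hu.1 i, vc_norm_sq hu,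
      real_inner_comm (u i) (vc u f), h0]
    ring
  simp only [h1, Finset.sum_sub_distrib, Finset.sum_const, Finset.card_univ, nsmul_eq_mul]
  ring

theorem card_cast {ι : Type} [Fintype ι] {j : ℕ} (h : Fintype.card ι + 1 = 2 * j) :
    (Fintype.card ι : ℝ) - 1 = 2 * j - 2 := by
  have : ((Fintype.card ι + 1 : ℕ) : ℝ) = ((2 * j : ℕ) : ℝ) := by rw [h]
  push_cast at this
  linarith

/-- `Hyp` from the curvature bounds -/
theorem sT_hyp {R : V → V → V → V → ℝ} (hR : AlgCurv R) {c : ℝ} {r : ℕ → ℝ} (h : SecLe R c)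
    (hr : PRicGe R c r) : Hyp (sT R c) r where
  curv := sT_curv hR c
  sec := sT_sec hR h
  ric := by
    intro j ι _ u hc hu f
    have h2 : ∑ i, sT R c (u i) (vc u f) (u i) (vc u f) =
        -(∑ i, R (u i) (vc u f) (u i) (vc u f)) - c * ((2 * j - 2) * ∑ i, f i ^ 2) := by
      rw [← card_cast hc, ← unit_trace_fam hu f, Finset.mul_sum, ← Finset.sum_neg_distrib,
        ← Finset.sum_sub_distrib]
      rfl
    rw [h2, ← vc_norm_sq hu f]
    have hRb := curv_bi hR
    have h3 : -(∑ i, R (u i) (vc u f) (u i) (vc u f)) ≤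
        ((2 * j - 2) * c + r j) * ‖vc u f‖ ^ 2 := by
      by_cases hx : vc u f = 0
      · rw [hx]
        have : ∀ i, R (u i) 0 (u i) 0 = 0 := fun i => by
          rw [hRb.anti 0 (u i), bi_zero1 hRb, neg_zero]
        simp [this]
      · have hx0 : ‖vc u f‖ ≠ 0 := norm_ne_zero_iff.2 hx
        have hmem : vc u f ∈ Submodule.span ℝ (Set.range u) :=
          Submodule.sum_mem _ fun i _ => Submodule.smul_mem _ _ (Submodule.subset_span ⟨i, rfl⟩)
        have h4 := hr j ι u hc hu ((‖vc u f‖)⁻¹ • vc u f) (Submodule.smul_mem _ _ hmem)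
          (by rw [norm_smul, norm_inv, norm_norm, inv_mul_cancel₀ hx0])
        have h5 : ∑ i, R (u i) ((‖vc u f‖)⁻¹ • vc u f) (u i) ((‖vc u f‖)⁻¹ • vc u f) =
            (‖vc u f‖)⁻¹ ^ 2 * ∑ i, R (u i) (vc u f) (u i) (vc u f) := by
          rw [Finset.mul_sum]
          refine Finset.sum_congr rfl fun i _ => ?_
          rw [bi_smul2 hRb, bi_smul4 hRb]; ring
        rw [h5] at h4
        have h6 : 0 < ‖vc u f‖ ^ 2 := by positivity
        have h7 : ‖vc u f‖ ^ 2 * ((‖vc u f‖)⁻¹ ^ 2 *
            ∑ i, R (u i) (vc u f) (u i) (vc u f)) = ∑ i, R (u i) (vc u f) (u i) (vc u f) := by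
          field_simp
        have h8 := mul_le_mul_of_nonneg_left h4 h6.le
        rw [h7] at h8
        linarith
    nlinarith

/-- sum of `R`, pulled back by `L`, and squares of simple bivectors -/
noncomputable def mod {N : ℕ} (R : V → V → V → V → ℝ) (L : V →ₗ[ℝ] V) (a b : Fin N → V) :
    V → V → V → V → ℝ :=
  fun x y z w => R (L x) (L y) (L z) (L w) + sbv a b x y z w

theorem lin_curv {R : V → V → V → V → ℝ} (hR : AlgCurv R) (L : V →ₗ[ℝ] V) :
    AlgCurv (fun x y z w => R (L x) (L y) (L z) (L w)) where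
  add x x' y z w := by simp only [map_add, hR.add]
  smul t x y z w := by simp only [map_smul, hR.smul]
  anti x y z w := hR.anti _ _ _ _
  pair x y z w := hR.pair _ _ _ _
  bianchi x y z w := hR.bianchi _ _ _ _

theorem mod_curv {N : ℕ} {R : V → V → V → V → ℝ} (hR : AlgCurv R) (L : V →ₗ[ℝ] V)
    (a b : Fin N → V) : AlgCurv (mod R L a b) := by
  have h1 := add_curv (lin_curv hR L) (sbv_curv a b)
  exact h1

theorem MG_any {S : Fin m → V → V → V → V → ℝ} (h : ∀ b, BiForm (S b))
    (e : OrthonormalBasis (Fin m × Bool) ℝ V) (u v : Fin m × Bool → V) :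
    MG S u v = MG S e v * e.toBasis.det u := by
  rw [MG_eq h, MG_eq h]
  have h1 := AlternatingMap.eq_smul_basis_det e.toBasis (MultilinearMap.alternatization (MM h v))
  have h2 := congrArg (fun f : V [⋀^(Fin m × Bool)]→ₗ[ℝ] ℝ => f u) h1
  simp only [AlternatingMap.smul_apply, smul_eq_mul, OrthonormalBasis.coe_toBasis] at h2
  exact h2

theorem MG_lin {S : Fin m → V → V → V → V → ℝ} (h : ∀ b, BiForm (S b))
    (e : OrthonormalBasis (Fin m × Bool) ℝ V) (L : V →ₗ[ℝ] V) :
    MG S (fun i => L (e i)) (fun i => L (e i)) = (LinearMap.det L) ^ 2 * MG S e e := by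
  have hd : e.toBasis.det (fun i => L (e i)) = LinearMap.det L := by
    have h1 := Module.Basis.det_comp e.toBasis L e
    have h2 : e.toBasis.det e = 1 := by
      have := e.toBasis.det_self
      rwa [OrthonormalBasis.coe_toBasis] at this
    rw [h2, mul_one] at h1
    exact h1
  rw [MG_any h e _ (fun i => L (e i)), hd, MG_symm h, MG_any h e _ e, hd]
  ring

theorem neg_bi {R : V → V → V → V → ℝ} (hR : AlgCurv R) : BiForm (negT R) := by
  have hb := curv_bi hR
  exact ⟨fun x x' y z w => by simp only [negT, hb.add]; ring,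
    fun t x y z w => by simp only [negT, hb.smul]; ring,
    fun x y z w => by simp only [negT]; rw [hb.anti],
    fun x y z w => by simp only [negT]; rw [hb.pair]⟩

/-- the integrand through `MG` -/
theorem gbc_MG (e : OrthonormalBasis (Fin m × Bool) ℝ V) (R : V → V → V → V → ℝ) :
    (-1 : ℝ) ^ m * gbc e R = 1 / ((8 * Real.pi) ^ m * m.factorial) *
      MG (fun _ : Fin m => negT R) e e := by
  unfold gbc MG
  simp only [Finset.mul_sum, negT, Finset.prod_neg, Finset.card_univ, Fintype.card_fin, sn]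
  refine Finset.sum_congr rfl fun σ _ => Finset.sum_congr rfl fun τ _ => ?_
  ring

theorem round_MG (m : ℕ) (δ : ℝ) : roundGB m δ = 1 / ((8 * Real.pi) ^ m * m.factorial) *
      (cM m * δ ^ m) := by
  have hπ := Real.pi_pos
  unfold roundGB cM
  have : (8 * Real.pi) ^ m = 2 ^ m * (4 * Real.pi) ^ m := by
    rw [← mul_pow]; congr 1; ring
  rw [this]
  field_simp

theorem Sm_nine (r : ℕ → ℝ) {m : ℕ} (hm : 2 ≤ m) :
    Sm r (r 3 / 9) m = (∑ j ∈ Finset.Icc 3 m, r j) / (3 * m) := by
  by_cases h2 : m = 2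
  · subst h2
    unfold Sm
    rw [if_pos le_rfl]
    have : Finset.Icc 3 2 = (∅ : Finset ℕ) := rfl
    rw [this, Finset.sum_empty, zero_div]
  · unfold Sm
    rw [if_neg (by omega)]
    have h3 : ∑ j ∈ Finset.Icc 3 m, r j = r 3 + ∑ j ∈ Finset.Icc 4 m, r j := by
      rw [← Finset.insert_Icc_add_one_left_eq_Icc (by omega : 3 ≤ m), Finset.sum_insert (by simp)]
      rfl
    rw [h3]
    have h4 : (m : ℝ) ≠ 0 := by
      have : 0 < m := by omega
      positivity
    field_simp
    ring

/-- the pointwise theorem, for a general threshold in dimension six -/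
theorem point_gen {r : ℕ → ℝ} {t : ℝ} (hA : Adm r t) (e : OrthonormalBasis (Fin m × Bool) ℝ V)
    {R : V → V → V → V → ℝ} (hR : AlgCurv R) (L : V →ₗ[ℝ] V) {c : ℝ}
    (hU : HS (fun x y z w => -R (L x) (L y) (L z) (L w) - c * unitT x y z w) r t)
    (hd : Sm r t m ≤ c) :
    roundGB m (c - Sm r t m) ≤ (-1) ^ m * (LinearMap.det L ^ 2 * gbc e R) := by
  have h1 := (claim hA m V e _ hU).1 c hd
  have h3 : sR c (fun x y z w => -R (L x) (L y) (L z) (L w) - c * unitT x y z w) =
      fun x y z w => -R (L x) (L y) (L z) (L w) := by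
    funext x y z w
    simp only [sR]; ring
  rw [h3] at h1
  have h31 : MG (fun _ : Fin m => fun x y z w => -R (L x) (L y) (L z) (L w)) e e =
      LinearMap.det L ^ 2 * MG (fun _ : Fin m => negT R) e e := by
    rw [← MG_lin (fun _ => neg_bi hR) e L]
    rfl
  rw [h31] at h1
  have hπ := Real.pi_pos
  have h4 : (-1 : ℝ) ^ m * (LinearMap.det L ^ 2 * gbc e R) =
      1 / ((8 * Real.pi) ^ m * m.factorial) *
      (LinearMap.det L ^ 2 * MG (fun _ : Fin m => negT R) e e) := by
    have := gbc_MG e R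
    linear_combination (LinearMap.det L ^ 2) * this
  rw [h4, round_MG]
  exact mul_le_mul_of_nonneg_left h1 (by positivity)

/-- **The pointwise theorem.** -/
theorem point {N : ℕ} (hm : 2 ≤ m) (e : OrthonormalBasis (Fin m × Bool) ℝ V)
    {R : V → V → V → V → ℝ} (hR : AlgCurv R) (L : V →ₗ[ℝ] V) (a b : Fin N → V) {c : ℝ}
    {r : ℕ → ℝ} (hr0 : 0 ≤ r 3) (hrm : Monotone r)
    (h : SecLe (mod R L a b) c) (hr : PRicGe (mod R L a b) c r) (hd : 0 ≤ dr m c r) :
    roundGB m (dr m c r) ≤ (-1) ^ m * (LinearMap.det L ^ 2 * gbc e R) := by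
  have hU : HP (fun x y z w => -R (L x) (L y) (L z) (L w) - c * unitT x y z w) r := by
    refine ⟨N, a, b, sT (mod R L a b) c, sT_hyp (mod_curv hR L a b) h hr, fun x y z w => ?_⟩
    simp only [sT, mod]
    ring
  have hA : Adm r (r 3 / 9) := by
    have h34 : r 3 ≤ r 4 := hrm (by norm_num)
    exact ⟨by linarith, hrm, by linarith⟩
  have h1 := point_gen hA e hR L (six hr0 hU) (by
    rw [Sm_nine r hm]
    unfold dr at hd
    linarith)
  rw [Sm_nine r hm] at h1
  exact h1

/-- the case of the given inner product, without squares -/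
theorem point0 (hm : 2 ≤ m) (e : OrthonormalBasis (Fin m × Bool) ℝ V)
    {R : V → V → V → V → ℝ} (hR : AlgCurv R) {c : ℝ} {r : ℕ → ℝ} (hr0 : 0 ≤ r 3)
    (hrm : Monotone r) (h : SecLe R c) (hr : PRicGe R c r) (hd : 0 ≤ dr m c r) :
    roundGB m (dr m c r) ≤ (-1) ^ m * gbc e R := by
  have h0 : mod R LinearMap.id (fun i : Fin 0 => (0 : V)) (fun i : Fin 0 => (0 : V)) = R := by
    funext x y z w
    simp [mod, sbv]
  have h1 := point (N := 0) hm e hR LinearMap.id (fun _ => 0) (fun _ => 0) (c := c) hr0 hrm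
    (by rw [h0]; exact h) (by rw [h0]; exact hr) hd
  simpa using h1

end point

end Pool.Agent.H349.RP
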