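import Pool.Agent.H349.RP.G
import Pool.Graph.R_seed8.H933R2.Hopf.Main

/-!
# Consequences: Ricci curvature, sectional pinching, neighbourhoods of the complex hyperbolic
tensor, integrals
-/

set_option autoImplicit false

namespace Pool.Agent.H349.RP

open Finset Module MeasureTheory Pool.Agent.W666.GB Pool.Agent.W669.HD

section cons

variable {V : Type} [NormedAddCommGroup V] [InnerProductSpace ℝ V] {m : ℕ}

theorem span_vc {ι : Type} [Fintype ι] {u : ι → V} {x : V}
    (hx : x ∈ Submodule.span ℝ (Set.range u)) : ∃ f : ι → ℝ, x = vc u f := by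
  obtain ⟨f, hf⟩ := (Submodule.mem_span_range_iff_exists_fun ℝ).1 hx
  exact ⟨f, hf.symm⟩

theorem unit_trace_span {ι : Type} [Fintype ι] {j : ℕ} {u : ι → V}
    (hc : Fintype.card ι + 1 = 2 * j) (hu : Orthonormal ℝ u) {x : V}
    (hx : x ∈ Submodule.span ℝ (Set.range u)) (h1 : ‖x‖ = 1) :
    ∑ i, unitT (u i) x (u i) x = 2 * j - 2 := by
  obtain ⟨f, rfl⟩ := span_vc hx
  rw [unit_trace_fam hu, ← vc_norm_sq hu, h1, card_cast hc]
  ring

theorem ric_hyp (hm : 1 ≤ m) (e : OrthonormalBasis (Fin m × Bool) ℝ V) {R : V → V → V → V → ℝ}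
    (hR : AlgCurv R) {c ρ : ℝ} (h : SecLe R c) (hr : RicGe e R ρ) :
    PRicGe R c (fun _ => ρ - (2 * m - 1) * c) ∧ 0 ≤ ρ - (2 * m - 1) * c := by
  classical
  have hb := curv_bi (sT_curv hR c)
  have key : ∀ x : V, ‖x‖ = 1 → ∑ i, sT R c (e i) x (e i) x ≤ ρ - (2 * m - 1) * c := by
    intro x hx
    have h2 : ∑ i, sT R c (e i) x (e i) x = -(∑ i, R (e i) x (e i) x) -
        c * ((2 * m - 1) * ‖x‖ ^ 2) := by
      rw [← unit_trace e x, Finset.mul_sum, ← Finset.sum_neg_distrib, ← Finset.sum_sub_distrib]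
      rfl
    rw [h2, hx]
    have := hr x hx
    linarith
  refine ⟨fun j ι _ u hc hu x hx h1 => ?_, ?_⟩
  · have h2 := partial_trace e (B := fun a b => sT R c a x b x)
      (fun a a' b => hb.add a a' x b x) (fun t a b => hb.smul t a x b x)
      (fun a b => hb.pair a x b x) (fun a => sT_sec hR h a x) hu
    have h3 := key x h1
    have h4 : ∑ i, sT R c (u i) x (u i) x = -(∑ i, R (u i) x (u i) x) -
        c * (2 * j - 2) := by
      rw [← unit_trace_span hc hu hx h1, Finset.mul_sum, ← Finset.sum_neg_distrib,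
        ← Finset.sum_sub_distrib]
      rfl
    rw [h4] at h2
    linarith
  · let i0 : Fin m × Bool := (⟨0, by omega⟩, false)
    have h1 := key (e i0) (e.orthonormal.1 i0)
    have h2 : 0 ≤ ∑ i, sT R c (e i) (e i0) (e i) (e i0) :=
      Finset.sum_nonneg fun i _ => sT_sec hR h _ _
    linarith

theorem dr_const (hm : 2 ≤ m) (c ρ : ℝ) : dr m c (fun _ => ρ) = c - (m - 2) * ρ / (3 * m) := by
  unfold dr
  rw [Finset.sum_const, Nat.card_Icc, nsmul_eq_mul]
  have : ((m + 1 - 3 : ℕ) : ℝ) = (m : ℝ) - 2 := by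
    have h1 : m + 1 - 3 = m - 2 := by omega
    rw [h1, Nat.cast_sub hm]
    push_cast
    ring
  rw [this]

/-- the pointwise theorem for Ricci curvature -/
theorem point_ric (hm : 2 ≤ m) (e : OrthonormalBasis (Fin m × Bool) ℝ V)
    {R : V → V → V → V → ℝ} (hR : AlgCurv R) {c ρ : ℝ} (h : SecLe R c) (hr : RicGe e R ρ)
    (hd : 0 ≤ c - (m - 2) * (ρ - (2 * m - 1) * c) / (3 * m)) :
    roundGB m (c - (m - 2) * (ρ - (2 * m - 1) * c) / (3 * m)) ≤ (-1) ^ m * gbc e R := by
  obtain ⟨h1, h2⟩ := ric_hyp (by omega) e hR h hr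
  have h3 := point0 hm e hR (r := fun _ => ρ - (2 * m - 1) * c) h2 monotone_const h h1
    (by rw [dr_const hm]; exact hd)
  rw [dr_const hm] at h3
  exact h3

/-- The curvature tensor of complex hyperbolic space, for the orthogonal complex structure `J`. -/
noncomputable def chT (J : V →ₗ[ℝ] V) (x y z w : V) : ℝ :=
  -(inner ℝ x z * inner ℝ y w - inner ℝ x w * inner ℝ y z +
    (inner ℝ (J x) z * inner ℝ (J y) w - inner ℝ (J x) w * inner ℝ (J y) z) +
    2 * (inner ℝ (J x) y * inner ℝ (J z) w))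

/-- Orthogonal complex structures. -/
def IsCS (J : V →ₗ[ℝ] V) : Prop := ∀ x : V, ‖J x‖ = ‖x‖ ∧ inner ℝ (J x) x = 0

theorem IsCS.skew {J : V →ₗ[ℝ] V} (h : IsCS J) (x y : V) : inner ℝ (J x) y = -inner ℝ (J y) x := by
  have h1 := (h (x + y)).2
  rw [map_add, inner_add_left, inner_add_right, inner_add_right, (h x).2, (h y).2] at h1
  linarith

theorem chT_curv {J : V →ₗ[ℝ] V} (h : IsCS J) : AlgCurv (chT J) where
  add x x' y z w := by
    simp only [chT, map_add, inner_add_left]; ring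
  smul t x y z w := by
    simp only [chT, map_smul, inner_smul_left, conj_trivial]; ring
  anti x y z w := by
    simp only [chT]
    rw [h.skew y x]; ring
  pair x y z w := by
    simp only [chT]
    rw [real_inner_comm x z, real_inner_comm y w, real_inner_comm x w, real_inner_comm y z,
      h.skew z x, h.skew w y, h.skew z y, h.skew w x]; ring
  bianchi x y z w := by
    simp only [chT]
    rw [real_inner_comm y x, real_inner_comm z x, real_inner_comm z y,
      h.skew y x, h.skew z x, h.skew z y]; ring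

theorem chT_sec {J : V →ₗ[ℝ] V} (h : IsCS J) {x y : V} (hx : ‖x‖ = 1) (hy : ‖y‖ = 1)
    (hxy : inner ℝ x y = 0) : chT J x y x y = -(1 + 3 * inner ℝ (J x) y ^ 2) := by
  simp only [chT]
  rw [real_inner_self_eq_norm_sq, real_inner_self_eq_norm_sq, hx, hy, hxy, (h x).2,
    h.skew y x]
  ring

/-- tensors near the complex hyperbolic one -/
theorem near_hyp {R : V → V → V → V → ℝ}
    (hR : AlgCurv R) {J : V →ₗ[ℝ] V} (hJ : IsCS J) {ε : ℝ}
    (h : ∀ x y : V, ‖x‖ = 1 → ‖y‖ = 1 → inner ℝ x y = 0 → |R x y x y - chT J x y x y| ≤ ε) :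
    SecLe R (1 - ε) ∧ PRicGe R (1 - ε) (fun j => 3 + 2 * (2 * j - 2) * ε) := by
  constructor
  · intro x y hx hy hxy
    have h1 := (abs_le.1 (h x y hx hy hxy)).2
    rw [chT_sec hJ hx hy hxy] at h1
    nlinarith [sq_nonneg (inner ℝ (J x) y)]
  · intro j ι _ u hc hu x hx h1
    -- the difference of `R` and the complex hyperbolic tensor
    have hn : AlgCurv (negT (chT J)) := by
      have hc := chT_curv hJ
      refine ⟨fun x x' y z w => ?_, fun t x y z w => ?_, fun x y z w => ?_, fun x y z w => ?_,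
        fun x y z w => ?_⟩
      · simp only [negT, hc.add]; ring
      · simp only [negT, hc.smul]; ring
      · simp only [negT]; rw [hc.anti]
      · simp only [negT]; rw [hc.pair]
      · simp only [negT]; have := hc.bianchi x y z w; linarith
    have hD : AlgCurv (addT (addT R (negT (chT J))) fun x y z w => ε * unitT x y z w) :=
      add_curv (add_curv hR hn) (unit_curv ε)
    have hD0 := bi_sec (curv_bi hD) (fun x y hx hy hxy => by
      have h1 := (abs_le.1 (h x y hx hy hxy)).1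
      simp only [addT, negT, unitT]
      rw [real_inner_self_eq_norm_sq, real_inner_self_eq_norm_sq, hx, hy, hxy]
      nlinarith)
    have h2 : 0 ≤ ∑ i, (addT (addT R (negT (chT J))) fun x y z w => ε * unitT x y z w)
        (u i) x (u i) x := Finset.sum_nonneg fun i _ => hD0 _ _
    have h3 : ∑ i, (addT (addT R (negT (chT J))) fun x y z w => ε * unitT x y z w)
        (u i) x (u i) x = ∑ i, R (u i) x (u i) x - ∑ i, chT J (u i) x (u i) x +
        ε * (2 * j - 2) := by
      rw [← unit_trace_span hc hu hx h1, Finset.mul_sum, ← Finset.sum_sub_distrib,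
        ← Finset.sum_add_distrib]
      exact Finset.sum_congr rfl fun i _ => by simp only [addT, negT]; ring
    have h4 : ∑ i, chT J (u i) x (u i) x =
        -((2 * j - 2) + 3 * ∑ i, inner ℝ (u i) (J x) ^ 2) := by
      rw [← unit_trace_span hc hu hx h1, Finset.mul_sum, ← Finset.sum_add_distrib,
        ← Finset.sum_neg_distrib]
      refine Finset.sum_congr rfl fun i _ => ?_
      simp only [chT, unitT]
      rw [(hJ (u i)).2, hJ.skew x (u i), hJ.skew (u i) x, real_inner_comm (u i) (J x)]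
      ring
    have h5 : ∑ i, inner ℝ (u i) (J x) ^ 2 ≤ 1 := by
      have h6 := hu.sum_inner_products_le (J x) (s := Finset.univ)
      rw [(hJ x).1, h1] at h6
      refine le_trans (le_of_eq ?_) (h6.trans (le_of_eq (by norm_num)))
      exact Finset.sum_congr rfl fun i _ => by rw [Real.norm_eq_abs, sq_abs]
    rw [h3, h4] at h2
    simp only
    nlinarith

theorem sum_odd (m : ℕ) (hm : 2 ≤ m) : ∑ j ∈ Finset.Icc 3 m, (2 * (j : ℝ) - 2) = m ^ 2 - m - 2 := by
  induction m, hm using Nat.le_induction with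
  | base =>
    have : Finset.Icc 3 2 = (∅ : Finset ℕ) := rfl
    rw [this, Finset.sum_empty]; norm_num
  | succ n hn ih =>
    rw [Finset.sum_Icc_succ_top (by omega), ih]
    push_cast
    ring

theorem sum_odd4 (m : ℕ) (hm : 3 ≤ m) : ∑ j ∈ Finset.Icc 4 m, (2 * (j : ℝ) - 2) = m ^ 2 - m - 6 := by
  induction m, hm using Nat.le_induction with
  | base =>
    have : Finset.Icc 4 3 = (∅ : Finset ℕ) := rfl
    rw [this, Finset.sum_empty]; norm_num
  | succ n hn ih =>
    rw [Finset.sum_Icc_succ_top (by omega), ih]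
    push_cast
    ring

theorem dr_near (hm : 2 ≤ m) (ε : ℝ) : dr m (1 - ε) (fun j => 3 + 2 * (2 * j - 2) * ε) =
    (6 - (2 * m ^ 2 + m - 4) * ε) / (3 * m) := by
  have h0 : (m : ℝ) ≠ 0 := by
    have : 0 < m := by omega
    positivity
  have h1 : ∑ j ∈ Finset.Icc 3 m, (3 + 2 * (2 * (j : ℝ) - 2) * ε) =
      3 * ((m : ℝ) - 2) + 2 * ε * (m ^ 2 - m - 2) := by
    rw [Finset.sum_add_distrib, Finset.sum_const, Nat.card_Icc, nsmul_eq_mul,
      ← sum_odd m hm, Finset.mul_sum]
    have h2 : ((m + 1 - 3 : ℕ) : ℝ) = (m : ℝ) - 2 := by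
      have h3 : m + 1 - 3 = m - 2 := by omega
      rw [h3, Nat.cast_sub hm]
      push_cast
      ring
    rw [h2, mul_comm ((m : ℝ) - 2) 3]
    congr 1
    exact Finset.sum_congr rfl fun j _ => by ring
  unfold dr
  rw [h1]
  field_simp
  ring

/-- dimension six, from the starting theorem `point_pos` -/
theorem six_pinched {β : ℝ} (hβ : 0 < β) {T : V → V → V → V → ℝ} (hT : AlgCurv T)
    (h0 : ∀ x y, 0 ≤ T x y x y)
    (h1 : ∀ x y : V, ‖x‖ = 1 → ‖y‖ = 1 → inner ℝ x y = 0 → T x y x y ≤ β)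
    (u : Fin 3 × Bool → V) (hu : Orthonormal ℝ u) :
    0 ≤ MG (fun _ : Fin 3 => sR (8 / 27 * β) T) u u := by
  classical
  rw [pull_MG hu]
  set b := EuclideanSpace.basisFun (Fin 3 × Bool) ℝ with hb
  set T' := pull T u with hT'
  let φ : Fin 3 × Bool ≃ Fin 6 := (Equiv.prodComm _ _).trans
    ((Equiv.prodCongr finTwoEquiv.symm (Equiv.refl _)).trans
      ((Equiv.prodComm _ _).trans finProdFinEquiv))
  let e6 : OrthonormalBasis (Fin 6) ℝ (EuclideanSpace ℝ (Fin 3 × Bool)) := b.reindex φ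
  have hcurv : Pool.Agent.W666.GB.AlgCurv (pull T u) := pull_curv hT u
  have hR6 : Hopf6.AlgCurv (sR (8 / 27 * β) T') := by
    have h2 := add_curv (unit_curv (V := EuclideanSpace ℝ (Fin 3 × Bool)) (8 / 27 * β)) hcurv
    exact ⟨h2.add, h2.smul, h2.anti, h2.pair, h2.bianchi⟩
  have hsec : Hopf6.SecIn (sR (8 / 27 * β) T') (8 / 27 * β) (35 / 8 * (8 / 27 * β)) := by
    intro x y hx hy hxy
    have h2 : unitT x y x y = 1 := by
      simp only [unitT]
      rw [real_inner_self_eq_norm_sq, real_inner_self_eq_norm_sq, hx, hy, hxy]; ring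
    have h3 : 0 ≤ T' x y x y := h0 _ _
    have h4 : T' x y x y ≤ β := by
      refine h1 _ _ ?_ ?_ ?_
      · rw [vc_norm hu]; exact hx
      · rw [vc_norm hu]; exact hy
      · rw [vc_inner hu]; exact hxy
    simp only [sR]
    rw [h2]
    constructor <;> linarith
  have h5 := Hopf6.point_pos e6 hR6 (by positivity) hsec
  have h6 : 0 ≤ Hopf6.gbc e6 (sR (8 / 27 * β) T') := by
    refine le_trans ?_ h5
    have : 0 < 8 / 27 * β := by positivity
    have := Hopf6.roundGB_pos this
    linarith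
  rw [Hopf6.gbc_eq] at h6
  have hπ := Real.pi_pos
  have h7 : 0 ≤ Hopf6.gb (Hopf6.tn e6 (sR (8 / 27 * β) T')) :=
    nonneg_of_mul_nonneg_right h6 (by positivity)
  refine h7.trans (le_of_eq ?_)
  unfold MG
  unfold Hopf6.gb
  rw [← Equiv.sum_comp φ.permCongr]
  refine Finset.sum_congr rfl fun σ _ => ?_
  rw [← Equiv.sum_comp φ.permCongr]
  refine Finset.sum_congr rfl fun τ _ => ?_
  have k0 : φ.symm 0 = (0, false) := by rw [Equiv.symm_apply_eq]; rfl
  have k1 : φ.symm 1 = (0, true) := by rw [Equiv.symm_apply_eq]; rfl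
  have k2 : φ.symm 2 = (1, false) := by rw [Equiv.symm_apply_eq]; rfl
  have k3 : φ.symm 3 = (1, true) := by rw [Equiv.symm_apply_eq]; rfl
  have k4 : φ.symm 4 = (2, false) := by rw [Equiv.symm_apply_eq]; rfl
  have k5 : φ.symm 5 = (2, true) := by rw [Equiv.symm_apply_eq]; rfl
  have he : ∀ i, e6 i = b (φ.symm i) := fun i => by
    simp only [e6, OrthonormalBasis.reindex_apply]
  simp only [Hopf6.tn, he, Equiv.permCongr_apply, Equiv.symm_apply_apply, k0, k1, k2, k3, k4, k5,
    Equiv.Perm.sign_permCongr, Fin.prod_univ_succ, Fin.prod_univ_zero, mul_one, sn]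
  have s1 : (Fin.succ 0 : Fin 3) = 1 := rfl
  have s2 : (Fin.succ (Fin.succ 0) : Fin 3) = 2 := rfl
  simp only [s1, s2]
  ring

theorem Sm_pinched (hm : 3 ≤ m) (β : ℝ) :
    Sm (fun j => (2 * (j : ℝ) - 2) * β) (8 / 27 * β) m = (3 * m ^ 2 - 3 * m - 10) * β / (9 * m) := by
  have h0 : (m : ℝ) ≠ 0 := by
    have : 0 < m := by omega
    positivity
  unfold Sm
  rw [if_neg (by omega), ← Finset.sum_mul, sum_odd4 m hm]
  field_simp
  ring

/-- the pointwise theorem for pinched sectional curvatures -/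
theorem point_pinched (hm : 3 ≤ m) (e : OrthonormalBasis (Fin m × Bool) ℝ V)
    {R : V → V → V → V → ℝ} (hR : AlgCurv R) {a b : ℝ} (h : SecIn R (-b) (-a))
    (hd : 0 ≤ a - (3 * m ^ 2 - 3 * m - 10) * (b - a) / (9 * m)) :
    roundGB m (a - (3 * m ^ 2 - 3 * m - 10) * (b - a) / (9 * m)) ≤ (-1) ^ m * gbc e R := by
  classical
  have hle : SecLe R a := fun x y hx hy hxy => (h x y hx hy hxy).2
  have hab : a ≤ b := by
    let i0 : Fin m × Bool := (⟨0, by omega⟩, false)
    let i1 : Fin m × Bool := (⟨0, by omega⟩, true)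
    have hne : i0 ≠ i1 := fun h => by
      have := congrArg Prod.snd h
      simp [i0, i1] at this
    have h1 := h (e i0) (e i1) (e.orthonormal.1 i0) (e.orthonormal.1 i1) (e.orthonormal.2 hne)
    linarith [h1.1, h1.2]
  set r : ℕ → ℝ := fun j => (2 * (j : ℝ) - 2) * (b - a) with hr
  have hβ : 0 ≤ b - a := by linarith
  have hbig := bi_sec (curv_bi (add_curv hR (unit_curv b))) (fun x y hx hy hxy => by
    have h1 := (h x y hx hy hxy).1
    simp only [addT, unitT]
    rw [real_inner_self_eq_norm_sq, real_inner_self_eq_norm_sq, hx, hy, hxy]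
    nlinarith)
  have hP : PRicGe R a r := by
    intro j ι _ u hc hu x hx h1
    have h2 : 0 ≤ ∑ i, (addT R fun x y z w => b * unitT x y z w) (u i) x (u i) x :=
      Finset.sum_nonneg fun i _ => hbig _ _
    have h3 : ∑ i, (addT R fun x y z w => b * unitT x y z w) (u i) x (u i) x =
        ∑ i, R (u i) x (u i) x + b * (2 * j - 2) := by
      rw [← unit_trace_span hc hu hx h1, Finset.mul_sum, ← Finset.sum_add_distrib]
      rfl
    rw [h3] at h2
    simp only [hr]
    linarith
  have hHP : HP (sT R a) r := by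
    refine ⟨0, fun _ => 0, fun _ => 0, sT R a, sT_hyp hR hle hP, fun x y z w => ?_⟩
    simp [sbv]
  have hHS : HS (sT R a) r (8 / 27 * (b - a)) := by
    rcases hβ.eq_or_lt with h0 | h0
    · have h3 : 0 ≤ r 3 := by simp only [hr]; rw [← h0]; simp
      have h4 := six h3 hHP
      have h5 : r 3 / 9 = 8 / 27 * (b - a) := by simp only [hr]; rw [← h0]; simp
      rwa [h5] at h4
    · refine ⟨hHP, fun u hu => six_pinched h0 (sT_curv hR a) (sT_sec hR hle) ?_ u hu⟩
      intro x y hx hy hxy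
      have h1 := (h x y hx hy hxy).1
      simp only [sT, unitT]
      rw [real_inner_self_eq_norm_sq, real_inner_self_eq_norm_sq, hx, hy, hxy]
      nlinarith
  have hA : Adm r (8 / 27 * (b - a)) := by
    refine ⟨by linarith, fun i j hij => ?_, ?_⟩
    · simp only [hr]
      have : (i : ℝ) ≤ j := by exact_mod_cast hij
      exact mul_le_mul_of_nonneg_right (by linarith) hβ
    · simp only [hr]; push_cast; linarith
  have hS := Sm_pinched hm (b - a)
  have h1 := point_gen hA e hR LinearMap.id (c := a) hHS (by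
    rw [hr, hS]; linarith)
  rw [hr, hS] at h1
  simpa using h1

/-- the integrated forms -/
theorem field (hm : 2 ≤ m) {M : Type} [MeasurableSpace M] (μ : Measure M) (K : CurvField m M)
    (c : M → ℝ) (r : M → ℕ → ℝ) (h : ∀ p, 0 ≤ r p 3 ∧ Monotone (r p) ∧ SecLe (K.R p) (c p) ∧
      PRicGe (K.R p) (c p) (r p) ∧ 0 ≤ dr m (c p) (r p)) :
    0 ≤ (-1) ^ m * ∫ p, K.gb p ∂μ ∧
    (Integrable K.gb μ → Integrable (fun p => roundGB m (dr m (c p) (r p))) μ →
      ∫ p, roundGB m (dr m (c p) (r p)) ∂μ ≤ (-1) ^ m * ∫ p, K.gb p ∂μ) ∧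
    (Integrable K.gb μ → μ {p | 0 < dr m (c p) (r p)} ≠ 0 →
      0 < (-1) ^ m * ∫ p, K.gb p ∂μ) := by
  have h0 : ∀ p, roundGB m (dr m (c p) (r p)) ≤ (-1) ^ m * K.gb p := fun p =>
    point0 hm (K.e p) (K.curv p) (h p).1 (h p).2.1 (h p).2.2.1 (h p).2.2.2.1 (h p).2.2.2.2
  have h1 : ∀ p, 0 ≤ (-1) ^ m * K.gb p := fun p =>
    (roundGB_nonneg (h p).2.2.2.2).trans (h0 p)
  refine ⟨?_, fun hi hi' => ?_, fun hi hμ => ?_⟩
  · rw [← integral_const_mul]
    exact integral_nonneg h1
  · rw [← integral_const_mul]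
    exact integral_mono hi' (hi.const_mul _) h0
  · rw [← integral_const_mul, integral_pos_iff_support_of_nonneg h1 (hi.const_mul _)]
    refine lt_of_lt_of_le (pos_iff_ne_zero.2 hμ) (measure_mono ?_)
    intro p hp
    exact ((roundGB_pos (m := m) hp).trans_le (h0 p)).ne'

end cons

end Pool.Agent.H349.RP
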