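import Pool.Agent.H349.RP.H

/-!
# Positive curvature: the mirror images of the bounds
-/

set_option autoImplicit false

namespace Pool.Agent.H349.RP

open Finset Module MeasureTheory Pool.Agent.W666.GB Pool.Agent.W669.HD

variable {V : Type} [NormedAddCommGroup V] [InnerProductSpace ℝ V] {m : ℕ}

/-- all sectional curvatures of `R` are at least `c` -/
def SecGeP (R : V → V → V → V → ℝ) (c : ℝ) : Prop :=
  ∀ x y : V, ‖x‖ = 1 → ‖y‖ = 1 → inner ℝ x y = 0 → c ≤ R x y x y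

/-- all Ricci curvatures of `R` are at most `ρ` -/
def RicLeP (e : OrthonormalBasis (Fin m × Bool) ℝ V) (R : V → V → V → V → ℝ) (ρ : ℝ) : Prop :=
  ∀ x : V, ‖x‖ = 1 → ∑ i, R (e i) x (e i) x ≤ ρ

/-- The Ricci curvatures of the restrictions of `R` to all subspaces of dimension `2 j - 1` (with
orthonormal bases `u`) are at most `(2 j - 2) c + r j`, for all `j`. -/
def PRicLeP (R : V → V → V → V → ℝ) (c : ℝ) (r : ℕ → ℝ) : Prop :=
  ∀ (j : ℕ) (ι : Type) [Fintype ι] (u : ι → V), Fintype.card ι + 1 = 2 * j → Orthonormal ℝ u →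
    ∀ x ∈ Submodule.span ℝ (Set.range u), ‖x‖ = 1 →
      ∑ i, R (u i) x (u i) x ≤ (2 * j - 2) * c + r j

/-- `R`, pulled back by `L`, minus the squares of the simple bivectors `a k ∧ b k` -/
noncomputable def modP {N : ℕ} (R : V → V → V → V → ℝ) (L : V →ₗ[ℝ] V) (a b : Fin N → V) :
    V → V → V → V → ℝ :=
  fun x y z w => R (L x) (L y) (L z) (L w) -
    ∑ k, (inner ℝ (a k) x * inner ℝ (b k) y - inner ℝ (a k) y * inner ℝ (b k) x) *
      (inner ℝ (a k) z * inner ℝ (b k) w - inner ℝ (a k) w * inner ℝ (b k) z)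

/-- The curvature tensor of complex projective space (sectional curvatures between `1` and `4`),
for the orthogonal complex structure `J`. -/
noncomputable def cpT (J : V →ₗ[ℝ] V) (x y z w : V) : ℝ :=
  inner ℝ x z * inner ℝ y w - inner ℝ x w * inner ℝ y z +
    (inner ℝ (J x) z * inner ℝ (J y) w - inner ℝ (J x) w * inner ℝ (J y) z) +
    2 * (inner ℝ (J x) y * inner ℝ (J z) w)

theorem neg_curvP {R : V → V → V → V → ℝ} (hR : AlgCurv R) : AlgCurv (negT R) :=
  ⟨fun x x' y z w => by simp only [negT, hR.add]; ring,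
    fun t x y z w => by simp only [negT, hR.smul]; ring,
    fun x y z w => by simp only [negT]; rw [hR.anti],
    fun x y z w => by simp only [negT]; rw [hR.pair],
    fun x y z w => by
      simp only [negT]
      have := hR.bianchi x y z w
      linarith⟩

theorem gbc_negP (e : OrthonormalBasis (Fin m × Bool) ℝ V) (R : V → V → V → V → ℝ) :
    gbc e (negT R) = (-1) ^ m * gbc e R := by
  unfold gbc
  have h : ∀ σ τ : Equiv.Perm (Fin m × Bool),
      ((Equiv.Perm.sign σ : ℤ) : ℝ) * ((Equiv.Perm.sign τ : ℤ) : ℝ) *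
        ∏ b : Fin m, negT R (e (σ (b, false))) (e (σ (b, true))) (e (τ (b, false)))
          (e (τ (b, true))) =
      (-1) ^ m * (((Equiv.Perm.sign σ : ℤ) : ℝ) * ((Equiv.Perm.sign τ : ℤ) : ℝ) *
        ∏ b : Fin m, R (e (σ (b, false))) (e (σ (b, true))) (e (τ (b, false)))
          (e (τ (b, true)))) := by
    intro σ τ
    have h1 : ∏ b : Fin m, negT R (e (σ (b, false))) (e (σ (b, true))) (e (τ (b, false)))
          (e (τ (b, true))) = (-1) ^ m * ∏ b : Fin m, R (e (σ (b, false))) (e (σ (b, true)))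
            (e (τ (b, false))) (e (τ (b, true))) := by
      have h2 : (-1 : ℝ) ^ m = ∏ _b : Fin m, (-1 : ℝ) := by
        rw [Finset.prod_const, Finset.card_univ, Fintype.card_fin]
      rw [h2, ← Finset.prod_mul_distrib]
      refine Finset.prod_congr rfl fun b _ => ?_
      simp only [negT]
      ring
    rw [h1]
    ring
  simp only [h, ← Finset.mul_sum]
  ring

theorem sign_cancel (x : ℝ) : (-1) ^ m * ((-1) ^ m * x) = x := by
  rw [← mul_assoc, ← mul_pow]
  norm_num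

theorem mod_negP {N : ℕ} (R : V → V → V → V → ℝ) (L : V →ₗ[ℝ] V) (a b : Fin N → V) :
    mod (negT R) L a b = negT (modP R L a b) := by
  funext x y z w
  simp only [mod, modP, negT, sbv, om]
  ring

theorem secP {R : V → V → V → V → ℝ} {c : ℝ} (h : SecGeP R c) : SecLe (negT R) c := by
  intro x y hx hy hxy
  have := h x y hx hy hxy
  simp only [negT]
  linarith

theorem ricP {e : OrthonormalBasis (Fin m × Bool) ℝ V} {R : V → V → V → V → ℝ} {ρ : ℝ}
    (h : RicLeP e R ρ) : RicGe e (negT R) ρ := by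
  intro x hx
  have := h x hx
  simp only [negT, Finset.sum_neg_distrib]
  linarith

theorem pricP {R : V → V → V → V → ℝ} {c : ℝ} {r : ℕ → ℝ} (h : PRicLeP R c r) :
    PRicGe (negT R) c r := by
  intro j ι _ u h1 h2 x hx hx1
  have := h j ι u h1 h2 x hx hx1
  simp only [negT, Finset.sum_neg_distrib]
  linarith

theorem pointP {N : ℕ} (hm : 2 ≤ m) (e : OrthonormalBasis (Fin m × Bool) ℝ V)
    {R : V → V → V → V → ℝ} (hR : AlgCurv R) (L : V →ₗ[ℝ] V) (a b : Fin N → V) {c : ℝ}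
    {r : ℕ → ℝ} (hr0 : 0 ≤ r 3) (hrm : Monotone r)
    (h : SecGeP (modP R L a b) c) (hr : PRicLeP (modP R L a b) c r) (hd : 0 ≤ dr m c r) :
    roundGB m (dr m c r) ≤ LinearMap.det L ^ 2 * gbc e R := by
  have h1 := point hm e (neg_curvP hR) L a b hr0 hrm (by rw [mod_negP]; exact secP h)
    (by rw [mod_negP]; exact pricP hr) hd
  rw [gbc_negP] at h1
  have h2 : (-1 : ℝ) ^ m * (LinearMap.det L ^ 2 * ((-1) ^ m * gbc e R)) =
      LinearMap.det L ^ 2 * gbc e R := by
    rw [mul_left_comm, sign_cancel]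
  rw [h2] at h1
  exact h1

theorem point0P {N : ℕ} (hm : 2 ≤ m) (e : OrthonormalBasis (Fin m × Bool) ℝ V)
    {R : V → V → V → V → ℝ} (hR : AlgCurv R) (a b : Fin N → V) {c : ℝ}
    {r : ℕ → ℝ} (hr0 : 0 ≤ r 3) (hrm : Monotone r)
    (h : SecGeP (modP R LinearMap.id a b) c) (hr : PRicLeP (modP R LinearMap.id a b) c r)
    (hd : 0 ≤ dr m c r) : roundGB m (dr m c r) ≤ gbc e R := by
  have h1 := pointP hm e hR LinearMap.id a b hr0 hrm h hr hd
  simpa using h1

theorem modP_curv {N : ℕ} {R : V → V → V → V → ℝ} (hR : AlgCurv R) (L : V →ₗ[ℝ] V)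
    (a b : Fin N → V) : AlgCurv (negT (modP R L a b)) := by
  rw [← mod_negP]
  exact mod_curv (neg_curvP hR) L a b

theorem point_ricP {N : ℕ} (hm : 2 ≤ m) (e : OrthonormalBasis (Fin m × Bool) ℝ V)
    {R : V → V → V → V → ℝ} (hR : AlgCurv R) (L : V →ₗ[ℝ] V) (a b : Fin N → V) {c ρ : ℝ}
    (h : SecGeP (modP R L a b) c) (hr : RicLeP e (modP R L a b) ρ)
    (hd : 0 ≤ c - (m - 2) * (ρ - (2 * m - 1) * c) / (3 * m)) :
    roundGB m (c - (m - 2) * (ρ - (2 * m - 1) * c) / (3 * m)) ≤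
      LinearMap.det L ^ 2 * gbc e R := by
  obtain ⟨h1, h2⟩ := ric_hyp (by omega) e (modP_curv hR L a b) (secP h) (ricP hr)
  have h3 := point hm e (neg_curvP hR) L a b (r := fun _ => ρ - (2 * m - 1) * c) h2
    monotone_const (by rw [mod_negP]; exact secP h) (by rw [mod_negP]; exact h1)
    (by rw [dr_const hm]; exact hd)
  rw [dr_const hm, gbc_negP] at h3
  have h4 : (-1 : ℝ) ^ m * (LinearMap.det L ^ 2 * ((-1) ^ m * gbc e R)) =
      LinearMap.det L ^ 2 * gbc e R := by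
    rw [mul_left_comm, sign_cancel]
  rw [h4] at h3
  exact h3

theorem cpT_eq (J : V →ₗ[ℝ] V) : negT (cpT J) = chT J := by
  funext x y z w
  simp only [negT, cpT, chT]

theorem cpT_curv {J : V →ₗ[ℝ] V} (h : IsCS J) : AlgCurv (cpT J) := by
  have h1 := neg_curvP (chT_curv h)
  have h2 : negT (chT J) = cpT J := by
    funext x y z w
    simp only [negT, cpT, chT]
    ring
  rwa [h2] at h1

/-- near the tensor of complex projective space -/
theorem point_nearP {N : ℕ} (hm : 2 ≤ m) (e : OrthonormalBasis (Fin m × Bool) ℝ V)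
    {R : V → V → V → V → ℝ} (hR : AlgCurv R) (L : V →ₗ[ℝ] V) (a b : Fin N → V)
    {J : V →ₗ[ℝ] V} (hJ : IsCS J) {ε : ℝ} (hε0 : 0 ≤ ε)
    (h : ∀ x y : V, ‖x‖ = 1 → ‖y‖ = 1 → inner ℝ x y = 0 →
      |modP R L a b x y x y - cpT J x y x y| ≤ ε)
    (hlt : (2 * m ^ 2 + m - 4) * ε < 6) :
    0 < roundGB m ((6 - (2 * m ^ 2 + m - 4) * ε) / (3 * m)) ∧
    roundGB m ((6 - (2 * m ^ 2 + m - 4) * ε) / (3 * m)) ≤ LinearMap.det L ^ 2 * gbc e R := by
  have hm0 : 0 < m := by omega
  obtain ⟨h1, h2⟩ := near_hyp (modP_curv hR L a b) hJ (ε := ε) (fun x y hx hy hxy => by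
    have h3 := h x y hx hy hxy
    have h4 : negT (modP R L a b) x y x y - chT J x y x y =
        -(modP R L a b x y x y - cpT J x y x y) := by
      rw [← cpT_eq]
      simp only [negT]
      ring
    rw [h4, abs_neg]
    exact h3)
  have h3 := dr_near hm ε
  have h4 : 0 < (6 - (2 * (m : ℝ) ^ 2 + m - 4) * ε) / (3 * m) :=
    div_pos (by linarith) (by positivity)
  refine ⟨roundGB_pos h4, ?_⟩
  have h6 : Monotone (fun j : ℕ => 3 + 2 * (2 * (j : ℝ) - 2) * ε) := by
    intro i j hij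
    have : (i : ℝ) ≤ j := by exact_mod_cast hij
    have h7 : 0 ≤ ((j : ℝ) - i) * ε := mul_nonneg (by linarith) hε0
    simp only
    nlinarith
  have h5 := point hm e (neg_curvP hR) L a b (c := 1 - ε)
    (r := fun j : ℕ => 3 + 2 * (2 * (j : ℝ) - 2) * ε)
    (by push_cast; nlinarith) h6 (by rw [mod_negP]; exact h1) (by rw [mod_negP]; exact h2)
    (by rw [h3]; exact h4.le)
  rw [h3, gbc_negP] at h5
  have h8 : (-1 : ℝ) ^ m * (LinearMap.det L ^ 2 * ((-1) ^ m * gbc e R)) =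
      LinearMap.det L ^ 2 * gbc e R := by
    rw [mul_left_comm, sign_cancel]
  rw [h8] at h5
  exact h5

/-- the integrated form -/
theorem fieldP (hm : 2 ≤ m) {M : Type} [MeasurableSpace M] (μ : Measure M) (K : CurvField m M)
    (c : M → ℝ) (r : M → ℕ → ℝ) (h : ∀ p, 0 ≤ r p 3 ∧ Monotone (r p) ∧ 0 ≤ dr m (c p) (r p) ∧
      ∃ (N : ℕ) (a b : Fin N → K.V p), SecGeP (modP (K.R p) LinearMap.id a b) (c p) ∧
        PRicLeP (modP (K.R p) LinearMap.id a b) (c p) (r p)) :
    0 ≤ ∫ p, K.gb p ∂μ ∧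
    (Integrable K.gb μ → Integrable (fun p => roundGB m (dr m (c p) (r p))) μ →
      ∫ p, roundGB m (dr m (c p) (r p)) ∂μ ≤ ∫ p, K.gb p ∂μ) ∧
    (Integrable K.gb μ → μ {p | 0 < dr m (c p) (r p)} ≠ 0 → 0 < ∫ p, K.gb p ∂μ) := by
  have h0 : ∀ p, roundGB m (dr m (c p) (r p)) ≤ K.gb p := fun p => by
    obtain ⟨h1, h2, h3, N, a, b, h4, h5⟩ := h p
    exact point0P hm (K.e p) (K.curv p) a b h1 h2 h4 h5 h3
  have h1 : ∀ p, 0 ≤ K.gb p := fun p => (roundGB_nonneg (h p).2.2.1).trans (h0 p)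
  refine ⟨integral_nonneg h1, fun hi hi' => integral_mono hi' hi h0, fun hi hμ => ?_⟩
  rw [integral_pos_iff_support_of_nonneg h1 hi]
  refine lt_of_lt_of_le (pos_iff_ne_zero.2 hμ) (measure_mono ?_)
  intro p hp
  exact ((roundGB_pos (m := m) hp).trans_le (h0 p)).ne'

end Pool.Agent.H349.RP
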